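import Mathlib

set_option autoImplicit false
set_option linter.unusedSectionVars false

open Finset
open scoped BigOperators

namespace Pool.Agent.Helper725.GridGain

section basics

variable {V : Type*} [Fintype V] [Nonempty V]

omit [Nonempty V] in
lemma expect_cons (k : ℕ) (F : (Fin (k+1) → V) → ℝ) :
    𝔼 u, F u = 𝔼 x : V, 𝔼 u : Fin k → V, F (Fin.cons x u) := by
  rw [← Finset.expect_product' (Finset.univ : Finset V) (Finset.univ : Finset (Fin k → V))
    (fun x u => F (Fin.cons x u)), Finset.univ_product_univ]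
  symm
  apply Fintype.expect_equiv (Fin.consEquiv (fun _ : Fin (k+1) => V))
  intro i
  rfl

lemma expect_prod (k : ℕ) (f : V → ℝ) :
    𝔼 u : Fin k → V, ∏ s, f (u s) = (𝔼 x, f x) ^ k := by
  induction k with
  | zero => simp
  | succ k ih =>
    rw [expect_cons]
    simp only [Fin.prod_univ_succ, Fin.cons_zero, Fin.cons_succ]
    rw [pow_succ', ← ih, ← Fintype.expect_mul_expect]

lemma expect_prod_sum (k : ℕ) (f g : V → ℝ) :
    𝔼 u : Fin (k+1) → V, (∏ s, f (u s)) * (∑ s, g (u s))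
      = (k + 1) * (𝔼 x, f x * g x) * (𝔼 x, f x) ^ k := by
  induction k with
  | zero =>
    rw [expect_cons]
    simp
  | succ k ih =>
    rw [expect_cons]
    simp only [Fin.prod_univ_succ (n := k+1), Fin.sum_univ_succ (n := k+1), Fin.cons_zero,
      Fin.cons_succ]
    have h1 : ∀ (x : V) (u : Fin (k+1) → V),
        f x * (∏ i, f (u i)) * (g x + ∑ i, g (u i))
          = (f x * g x) * (∏ i, f (u i)) + f x * ((∏ i, f (u i)) * (∑ i, g (u i))) := by
      intro x u; ring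
    simp only [h1, Finset.expect_add_distrib]
    rw [← Fintype.expect_mul_expect, ← Fintype.expect_mul_expect, ih, expect_prod]
    push_cast
    ring

lemma expect_sum (k : ℕ) (g : V → ℝ) :
    𝔼 u : Fin k → V, (∑ s, g (u s)) = k * (𝔼 x, g x) := by
  induction k with
  | zero => simp
  | succ k ih =>
    rw [expect_cons]
    simp only [Fin.sum_univ_succ, Fin.cons_zero, Fin.cons_succ, Finset.expect_add_distrib,
      Fintype.expect_const, ih]
    push_cast
    ring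

lemma expect_sum_sq (k : ℕ) (g : V → ℝ) :
    𝔼 u : Fin k → V, (∑ s, g (u s)) ^ 2
      = k * (k - 1) * (𝔼 x, g x) ^ 2 + k * (𝔼 x, (g x) ^ 2) := by
  induction k with
  | zero => simp
  | succ k ih =>
    rw [expect_cons]
    simp only [Fin.sum_univ_succ, Fin.cons_zero, Fin.cons_succ]
    have h1 : ∀ (x : V) (u : Fin k → V),
        (g x + ∑ i, g (u i)) ^ 2
          = (g x)^2 + 2 * (g x * (∑ i, g (u i))) + (∑ i, g (u i)) ^ 2 := by
      intro x u; ring
    simp only [h1, Finset.expect_add_distrib, ← Finset.mul_expect, ← Finset.expect_mul,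
      Fintype.expect_const, ih, expect_sum]
    push_cast
    ring

end basics

/-- Tangent line inequality combined with Bernoulli. -/
lemma pointwise_ineq (b : ℕ) (hb : 2 ≤ b) (F g : ℝ) (hF : 0 ≤ F) (hg : 1 ≤ g) :
    b * g * F - g * (g + b - 2) ≤ F ^ b := by
  obtain ⟨c, rfl⟩ : ∃ c, b = c + 1 := ⟨b - 1, by omega⟩
  have hc : c ≠ 0 := by omega
  set t : ℝ := g ^ ((c : ℝ)⁻¹) with ht
  have ht1 : 1 ≤ t := Real.one_le_rpow hg (by positivity)
  have ht0 : 0 < t := by linarith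
  have htc : t ^ c = g := Real.rpow_inv_natCast_pow (by linarith) hc
  have h1 : 1 + (c : ℝ) * (t - 1) ≤ g := by
    have := one_add_mul_le_pow (a := t - 1) (by linarith) c
    rw [← htc]
    simpa using this
  have h2 : 1 + ((c + 1 : ℕ) : ℝ) * (F / t - 1) ≤ (F / t) ^ (c + 1) := by
    have h0 : 0 ≤ F / t := by positivity
    have := one_add_mul_le_pow (a := F / t - 1) (by linarith) (c + 1)
    simpa using this
  have h3 : t ^ (c + 1) * (1 + ((c + 1 : ℕ) : ℝ) * (F / t - 1)) ≤ F ^ (c + 1) := by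
    calc t ^ (c + 1) * (1 + ((c + 1 : ℕ) : ℝ) * (F / t - 1))
        ≤ t ^ (c + 1) * (F / t) ^ (c + 1) := by
          apply mul_le_mul_of_nonneg_left h2 (by positivity)
      _ = F ^ (c + 1) := by
          rw [← mul_pow]; congr 1; field_simp
  have h4 : t ^ (c + 1) * (1 + ((c + 1 : ℕ) : ℝ) * (F / t - 1))
      = ((c + 1 : ℕ) : ℝ) * g * F - c * t * g := by
    rw [pow_succ, htc]
    push_cast
    field_simp
    ring
  rw [h4] at h3
  have h5 : c * t * g ≤ g * (g + ((c + 1 : ℕ) : ℝ) - 2) := by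
    have : c * t ≤ g + ((c + 1 : ℕ) : ℝ) - 2 := by push_cast; linarith
    nlinarith
  linarith

/-- Power mean inequality for averages. -/
lemma pow_expect_le {ι : Type*} [Fintype ι] [Nonempty ι] (f : ι → ℝ) (hf : ∀ i, 0 ≤ f i) (n : ℕ) :
    (𝔼 i, f i) ^ n ≤ 𝔼 i, (f i) ^ n := by
  have hN : (0:ℝ) < Fintype.card ι := by exact_mod_cast Fintype.card_pos
  have := Real.pow_arith_mean_le_arith_mean_pow (Finset.univ : Finset ι)
    (fun _ => (1 : ℝ) / Fintype.card ι) f (fun i _ => by positivity)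
    (by simp) (fun i _ => hf i) n
  rw [Fintype.expect_eq_sum_div_card, Fintype.expect_eq_sum_div_card, Finset.sum_div,
    Finset.sum_div]
  calc (∑ i, f i / (Fintype.card ι : ℝ)) ^ n = (∑ i, (1 : ℝ) / Fintype.card ι * f i) ^ n := by
        congr 1
        apply Finset.sum_congr rfl
        intro i _
        ring
    _ ≤ _ := this
    _ = _ := by
        apply Finset.sum_congr rfl
        intro i _
        ring

section core

variable {V : Type*} [Fintype V] [Nonempty V]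

/-- weight of the class of colour `p` -/
noncomputable def wt {r : ℕ} (κ : V → Fin r) (p : Fin r) : ℝ :=
  𝔼 x, if κ x = p then (1 : ℝ) else 0

omit [Nonempty V] in
lemma wt_nonneg {r : ℕ} (κ : V → Fin r) (p : Fin r) : 0 ≤ wt κ p := by
  unfold wt
  apply Finset.expect_nonneg
  intro i _
  split_ifs <;> norm_num

lemma wt_pos {r : ℕ} (κ : V → Fin r) (x : V) : 0 < wt κ (κ x) := by
  unfold wt
  apply Finset.expect_pos'
  · intro i _
    split_ifs <;> norm_num
  · exact ⟨x, Finset.mem_univ _, by simp⟩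

lemma wt_sum {r : ℕ} (κ : V → Fin r) : ∑ p, wt κ p = 1 := by
  unfold wt
  rw [← Finset.expect_sum_comm]
  simp

/-- the kernel -/
noncomputable def ker {r : ℕ} (κ : V → Fin r) (x y : V) : ℝ :=
  if κ x = κ y then (wt κ (κ x))⁻¹ else 0

omit [Nonempty V] in
lemma ker_nonneg {r : ℕ} (κ : V → Fin r) (x y : V) : 0 ≤ ker κ x y := by
  unfold ker
  have := wt_nonneg κ (κ x)
  split_ifs
  · positivity
  · norm_num

omit [Nonempty V] in
lemma ker_symm {r : ℕ} (κ : V → Fin r) (x y : V) : ker κ x y = ker κ y x := by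
  unfold ker
  by_cases h : κ x = κ y
  · simp [h]
  · rw [if_neg h, if_neg (fun h' => h h'.symm)]

lemma ker_expect {r : ℕ} (κ : V → Fin r) (x : V) : 𝔼 y, ker κ x y = 1 := by
  have h1 : ∀ y, ker κ x y = (wt κ (κ x))⁻¹ * (if κ y = κ x then (1 : ℝ) else 0) := by
    intro y
    unfold ker
    by_cases h : κ x = κ y
    · rw [if_pos h, if_pos h.symm, mul_one]
    · rw [if_neg h, if_neg (fun h' => h h'.symm), mul_zero]
  simp only [h1]
  rw [← Finset.mul_expect]
  have := wt_pos κ x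
  change (wt κ (κ x))⁻¹ * wt κ (κ x) = 1
  field_simp

lemma ker_expect' {r : ℕ} (κ : V → Fin r) (y : V) : 𝔼 x, ker κ x y = 1 := by
  simp only [ker_symm κ _ y]
  exact ker_expect κ y

lemma ker_sq_expect {r : ℕ} (κ : V → Fin r) (x : V) :
    𝔼 y, (ker κ x y) ^ 2 = (wt κ (κ x))⁻¹ := by
  have h1 : ∀ y, (ker κ x y) ^ 2 = (wt κ (κ x))⁻¹ * ker κ x y := by
    intro y
    unfold ker
    split_ifs <;> ring
  simp only [h1]
  rw [← Finset.mul_expect, ker_expect, mul_one]

lemma inv_wt_expect {r : ℕ} (κ : V → Fin r) : 𝔼 x, (wt κ (κ x))⁻¹ ≤ r := by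
  have h1 : ∀ x, (wt κ (κ x))⁻¹ = ∑ p, (if κ x = p then (1 : ℝ) else 0) * (wt κ p)⁻¹ := by
    intro x
    simp
  simp only [h1]
  rw [Finset.expect_sum_comm]
  simp only [← Finset.expect_mul]
  calc ∑ p, (𝔼 x, if κ x = p then (1 : ℝ) else 0) * (wt κ p)⁻¹
      ≤ ∑ p : Fin r, (1 : ℝ) := by
        apply Finset.sum_le_sum
        intro p _
        change wt κ p * (wt κ p)⁻¹ ≤ 1
        exact mul_inv_le_one
    _ = r := by simp

/-- The Cauchy-Schwarz gain at one vertex: `f` vanishes on the colour class `p0`. -/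
lemma gain_vertex {r : ℕ} (κ : V → Fin r) (f : V → ℝ) (p0 : Fin r)
    (h0 : ∀ x, κ x = p0 → f x = 0) :
    (𝔼 x, f x) ^ 2 * (1 + wt κ p0) ≤ 𝔼 x, 𝔼 z, f x * f z * ker κ x z := by
  classical
  set β : Fin r → ℝ := fun p => 𝔼 x, (if κ x = p then (1 : ℝ) else 0) * f x with hβ
  have hZ : 𝔼 x, 𝔼 z, f x * f z * ker κ x z = ∑ p, (β p) ^ 2 * (wt κ p)⁻¹ := by
    have h1 : ∀ x z, f x * f z * ker κ x z = ∑ p, ((if κ x = p then (1 : ℝ) else 0) * f x) *
        ((if κ z = p then (1 : ℝ) else 0) * f z) * (wt κ p)⁻¹ := by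
      intro x z
      unfold ker
      rw [Finset.sum_eq_single (κ x)]
      · by_cases h : κ x = κ z
        · simp [h]
        · rw [if_neg h, if_pos rfl, if_neg (fun h' => h h'.symm)]
          ring
      · intro p _ hp
        rw [if_neg (fun h' => hp h'.symm)]
        ring
      · intro h
        exact absurd (Finset.mem_univ _) h
    simp only [h1, Finset.expect_sum_comm]
    apply Finset.sum_congr rfl
    intro p _
    simp only [← Finset.expect_mul]
    rw [← Fintype.expect_mul_expect, sq]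
  have hdeg : 𝔼 x, f x = ∑ p, β p := by
    rw [hβ]
    simp only
    rw [← Finset.expect_sum_comm]
    apply Finset.expect_congr rfl
    intro x _
    rw [← Finset.sum_mul]
    simp
  have hβ0 : β p0 = 0 := by
    rw [hβ]
    simp only
    apply Finset.expect_eq_zero
    intro x _
    by_cases h : κ x = p0
    · rw [h0 x h, mul_zero]
    · rw [if_neg h, zero_mul]
  have hβw : ∀ p, wt κ p = 0 → β p = 0 := by
    intro p hp
    rw [hβ]
    simp only
    apply Finset.expect_eq_zero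
    intro x _
    by_cases h : κ x = p
    · have := wt_pos κ x
      rw [h, hp] at this
      exact absurd this (lt_irrefl _)
    · rw [if_neg h, zero_mul]
  have hcs : (∑ p ∈ Finset.univ.erase p0, β p) ^ 2
      ≤ (∑ p ∈ Finset.univ.erase p0, (β p) ^ 2 * (wt κ p)⁻¹) *
        (∑ p ∈ Finset.univ.erase p0, wt κ p) := by
    apply Finset.sum_sq_le_sum_mul_sum_of_sq_le_mul
    · intro p _
      have := wt_nonneg κ p
      positivity
    · intro p _
      exact wt_nonneg κ p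
    · intro p _
      by_cases h : wt κ p = 0
      · rw [hβw p h, h]; simp
      · apply le_of_eq
        field_simp
  have e1 : ∑ p ∈ Finset.univ.erase p0, β p = 𝔼 x, f x := by
    rw [hdeg, ← Finset.sum_erase_add _ _ (Finset.mem_univ p0), hβ0, add_zero]
  have e2 : ∑ p ∈ Finset.univ.erase p0, (β p) ^ 2 * (wt κ p)⁻¹
      = ∑ p, (β p) ^ 2 * (wt κ p)⁻¹ := by
    rw [← Finset.sum_erase_add _ _ (Finset.mem_univ p0), hβ0]
    simp
  have e3 : ∑ p ∈ Finset.univ.erase p0, wt κ p = 1 - wt κ p0 := by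
    rw [← wt_sum κ, ← Finset.sum_erase_add _ _ (Finset.mem_univ p0)]
    ring
  rw [e1, e2, e3] at hcs
  rw [hZ]
  set S : ℝ := ∑ p, (β p) ^ 2 * (wt κ p)⁻¹ with hS
  have hS0 : 0 ≤ S := by
    apply Finset.sum_nonneg
    intro p _
    have := wt_nonneg κ p
    positivity
  have hw0 := wt_nonneg κ p0
  calc (𝔼 x, f x) ^ 2 * (1 + wt κ p0) ≤ (S * (1 - wt κ p0)) * (1 + wt κ p0) := by
        apply mul_le_mul_of_nonneg_right hcs (by linarith)
    _ = S - S * (wt κ p0) ^ 2 := by ring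
    _ ≤ S := by
        have : 0 ≤ S * (wt κ p0) ^ 2 := by positivity
        linarith

/-- the second weight `M(u,v)` -/
noncomputable def bigM {r : ℕ} (κ : V → Fin r) {k : ℕ} (u v : Fin k → V) : ℝ :=
  ∑ t, ∑ s, ker κ (u s) (v t)

lemma bigM_nonneg {r : ℕ} (κ : V → Fin r) {k : ℕ} (u v : Fin k → V) : 0 ≤ bigM κ u v :=
  Finset.sum_nonneg (fun _ _ => Finset.sum_nonneg (fun _ _ => ker_nonneg κ _ _))

lemma bigM_expect {r : ℕ} (κ : V → Fin r) (k : ℕ) :
    𝔼 u : Fin k → V, 𝔼 v : Fin k → V, bigM κ u v = (k : ℝ) ^ 2 := by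
  unfold bigM
  have h1 : ∀ u : Fin k → V, 𝔼 v : Fin k → V, ∑ t, ∑ s, ker κ (u s) (v t) = (k : ℝ) ^ 2 := by
    intro u
    rw [expect_sum k (fun z => ∑ s, ker κ (u s) z), Finset.expect_sum_comm]
    simp only [ker_expect]
    simp
    ring
  simp only [h1]
  exact Fintype.expect_const _

lemma bigM_sq_expect {r : ℕ} (κ : V → Fin r) (k : ℕ) :
    𝔼 u : Fin k → V, 𝔼 v : Fin k → V, (bigM κ u v) ^ 2 ≤ (k : ℝ) ^ 2 * (r + (k : ℝ) ^ 2) := by
  unfold bigM
  have h1 : ∀ u : Fin k → V, 𝔼 v : Fin k → V, (∑ t, ∑ s, ker κ (u s) (v t)) ^ 2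
      = k * (k - 1) * (k : ℝ) ^ 2 + k * 𝔼 z, (∑ s, ker κ (u s) z) ^ 2 := by
    intro u
    rw [expect_sum_sq k (fun z => ∑ s, ker κ (u s) z), Finset.expect_sum_comm]
    simp only [ker_expect]
    simp
  simp only [h1, Finset.expect_add_distrib, ← Finset.mul_expect, Fintype.expect_const]
  rw [Finset.expect_comm]
  have h2 : ∀ z : V, 𝔼 u : Fin k → V, (∑ s, ker κ (u s) z) ^ 2
      = k * (k - 1) + k * (wt κ (κ z))⁻¹ := by
    intro z
    rw [expect_sum_sq k (fun x => ker κ x z), ker_expect']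
    simp only [ker_symm κ _ z, ker_sq_expect]
    ring
  simp only [h2, Finset.expect_add_distrib, ← Finset.mul_expect, Fintype.expect_const]
  have h3 := inv_wt_expect κ
  have hk : (0:ℝ) ≤ (k:ℝ) ^ 2 := by positivity
  nlinarith [mul_le_mul_of_nonneg_left h3 hk]

/-- `F(u,v)` -/
noncomputable def bigF (B : V → V → ℝ) {k : ℕ} (u v : Fin k → V) : ℝ :=
  𝔼 y, (∏ s, B (u s) y) * (∏ t, B (v t) y)

lemma bigF_nonneg (B : V → V → ℝ) (hB : ∀ x y, 0 ≤ B x y) {k : ℕ} (u v : Fin k → V) :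
    0 ≤ bigF B u v := by
  unfold bigF
  apply Finset.expect_nonneg
  intro y _
  apply mul_nonneg <;> exact Finset.prod_nonneg (fun _ _ => hB _ _)

lemma bigF_expect (B : V → V → ℝ) (k : ℕ) :
    𝔼 u : Fin k → V, 𝔼 v : Fin k → V, bigF B u v = 𝔼 y, ((𝔼 x, B x y) ^ k) ^ 2 := by
  unfold bigF
  have h1 : ∀ u : Fin k → V, 𝔼 v : Fin k → V, 𝔼 y, (∏ s, B (u s) y) * (∏ t, B (v t) y)
      = 𝔼 y, (∏ s, B (u s) y) * (𝔼 x, B x y) ^ k := by
    intro u
    rw [Finset.expect_comm]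
    apply Finset.expect_congr rfl
    intro y _
    rw [← Finset.mul_expect, expect_prod k (fun x => B x y)]
  simp only [h1]
  rw [Finset.expect_comm]
  apply Finset.expect_congr rfl
  intro y _
  rw [← Finset.expect_mul, expect_prod k (fun x => B x y), sq]

lemma bigFM_expect {r : ℕ} (κ : V → Fin r) (B : V → V → ℝ) (k : ℕ) :
    𝔼 u : Fin (k+1) → V, 𝔼 v : Fin (k+1) → V, bigF B u v * bigM κ u v
      = ((k : ℝ) + 1) ^ 2 * 𝔼 y, (𝔼 x, 𝔼 z, B x y * B z y * ker κ x z) *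
        ((𝔼 x, B x y) ^ k) ^ 2 := by
  unfold bigF bigM
  have h1 : ∀ u : Fin (k+1) → V, 𝔼 v : Fin (k+1) → V,
      (𝔼 y, (∏ s, B (u s) y) * (∏ t, B (v t) y)) * (∑ t, ∑ s, ker κ (u s) (v t))
      = 𝔼 y, (∏ s, B (u s) y) * ((k + 1) * (∑ s, 𝔼 z, B z y * ker κ (u s) z)
          * (𝔼 x, B x y) ^ k) := by
    intro u
    simp only [Finset.expect_mul]
    rw [Finset.expect_comm]
    apply Finset.expect_congr rfl
    intro y _
    have h2 : ∀ v : Fin (k+1) → V, ((∏ s, B (u s) y) * ∏ t, B (v t) y) *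
        ∑ t, ∑ s, ker κ (u s) (v t) = (∏ s, B (u s) y) * ((∏ t, B (v t) y) *
        ∑ t, ∑ s, ker κ (u s) (v t)) := by
      intro v; ring
    simp only [h2]
    rw [← Finset.mul_expect, expect_prod_sum k (fun x => B x y) (fun z => ∑ s, ker κ (u s) z)]
    congr 3
    rw [← Finset.expect_sum_comm]
    apply Finset.expect_congr rfl
    intro z _
    rw [Finset.mul_sum]
  simp only [h1]
  rw [Finset.expect_comm, Finset.mul_expect]
  apply Finset.expect_congr rfl
  intro y _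
  have h3 : ∀ u : Fin (k+1) → V, (∏ s, B (u s) y) * ((k + 1) *
      (∑ s, 𝔼 z, B z y * ker κ (u s) z) * (𝔼 x, B x y) ^ k)
      = ((∏ s, B (u s) y) * (∑ s, 𝔼 z, B z y * ker κ (u s) z)) *
        ((k + 1) * (𝔼 x, B x y) ^ k) := by
    intro u; ring
  simp only [h3]
  rw [← Finset.expect_mul, expect_prod_sum k (fun x => B x y)
    (fun x => 𝔼 z, B z y * ker κ x z)]
  have h4 : ∀ x, B x y * (𝔼 z, B z y * ker κ x z) = 𝔼 z, B x y * B z y * ker κ x z := by
    intro x
    rw [Finset.mul_expect]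
    apply Finset.expect_congr rfl
    intro z _
    ring
  simp only [h4]
  ring

/-- Core gain lemma (density normalised to one). -/
lemma core_gain {r : ℕ} (hr : 0 < r) (κ : V → Fin r) (B : V → V → ℝ) (hB : ∀ x y, 0 ≤ B x y)
    (hκ : ∀ x y, κ x = κ y → B x y = 0) (hone : 𝔼 y, 𝔼 x, B x y = 1) (k b : ℕ) (hb : 2 ≤ b) :
    1 + (((k:ℝ)+1)^2 * (b:ℝ)^2) / (4 * (r:ℝ)^2 * (r + ((k:ℝ)+1)^2)) ≤
      𝔼 u : Fin (k+1) → V, 𝔼 v : Fin (k+1) → V, (bigF B u v) ^ b := by
  have hr0 : (0:ℝ) < r := by exact_mod_cast hr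
  have hb0 : (2:ℝ) ≤ b := by exact_mod_cast hb
  set d : V → ℝ := fun y => 𝔼 x, B x y with hd
  have hd0 : ∀ y, 0 ≤ d y := fun y => Finset.expect_nonneg (fun x _ => hB x y)
  have hdone : 𝔼 y, d y = 1 := hone
  set q : ℝ := (k:ℝ) + 1 with hq
  have hq0 : 0 < q := by positivity
  -- η
  set η : ℝ := 𝔼 y, (d y ^ (k+1)) ^ 2 * wt κ (κ y) with hη
  have hη0 : (r:ℝ)⁻¹ ≤ η := by
    have h1 : 1 ≤ 𝔼 y, d y ^ (k+1) := by
      have := pow_expect_le d hd0 (k+1)
      rwa [hdone, one_pow] at this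
    have hN : (0:ℝ) < Fintype.card V := by exact_mod_cast Fintype.card_pos
    have h2 : (∑ y, d y ^ (k+1)) ^ 2 ≤ (∑ y, (d y ^ (k+1)) ^ 2 * wt κ (κ y)) *
        (∑ y, (wt κ (κ y))⁻¹) := by
      apply Finset.sum_sq_le_sum_mul_sum_of_sq_le_mul
      · intro y _
        have := wt_nonneg κ (κ y)
        positivity
      · intro y _
        have := wt_nonneg κ (κ y)
        positivity
      · intro y _
        have := wt_pos κ y
        apply le_of_eq
        field_simp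
    have h3 : (𝔼 y, d y ^ (k+1)) ^ 2 ≤ η * (𝔼 y, (wt κ (κ y))⁻¹) := by
      rw [hη, Fintype.expect_eq_sum_div_card, Fintype.expect_eq_sum_div_card,
        Fintype.expect_eq_sum_div_card, div_pow, div_mul_div_comm, ← sq]
      exact div_le_div_of_nonneg_right h2 (by positivity)
    have h4 := inv_wt_expect κ
    have hη1 : 0 ≤ η := by
      rw [hη]
      apply Finset.expect_nonneg
      intro y _
      have := wt_nonneg κ (κ y)
      positivity
    have h5 : 1 ≤ η * r := by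
      calc (1:ℝ) ≤ (𝔼 y, d y ^ (k+1)) ^ 2 := by nlinarith
        _ ≤ η * (𝔼 y, (wt κ (κ y))⁻¹) := h3
        _ ≤ η * r := mul_le_mul_of_nonneg_left h4 hη1
    rw [inv_le_iff_one_le_mul₀ hr0]
    exact h5
  have hηpos : 0 < η := lt_of_lt_of_le (by positivity) hη0
  set D : ℝ := 𝔼 y, (d y ^ (k+1)) ^ 2 with hD
  have hD1 : 1 ≤ D := by
    have h1 := pow_expect_le d hd0 ((k+1)*2)
    rw [hdone, one_pow] at h1
    rw [hD]
    simpa [pow_mul] using h1
  -- moments
  have hEF : 𝔼 u : Fin (k+1) → V, 𝔼 v : Fin (k+1) → V, bigF B u v = D := by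
    rw [bigF_expect]
  have hEM : 𝔼 u : Fin (k+1) → V, 𝔼 v : Fin (k+1) → V, bigM κ u v = q ^ 2 := by
    rw [bigM_expect]
    push_cast
    rfl
  have hEM2 : 𝔼 u : Fin (k+1) → V, 𝔼 v : Fin (k+1) → V, (bigM κ u v) ^ 2
      ≤ q ^ 2 * (r + q ^ 2) := by
    have := bigM_sq_expect κ (k+1)
    push_cast at this
    exact this
  have hEFM : q ^ 2 * (D + η) ≤
      𝔼 u : Fin (k+1) → V, 𝔼 v : Fin (k+1) → V, bigF B u v * bigM κ u v := by
    rw [bigFM_expect]
    apply mul_le_mul_of_nonneg_left _ (by positivity)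
    rw [hD, hη, ← Finset.expect_add_distrib]
    apply Finset.expect_le_expect
    intro y _
    have hg := gain_vertex κ (fun x => B x y) (κ y) (fun x hx => hκ x y hx)
    calc (d y ^ (k+1)) ^ 2 + (d y ^ (k+1)) ^ 2 * wt κ (κ y)
        = (d y ^ 2 * (1 + wt κ (κ y))) * (d y ^ k) ^ 2 := by ring
      _ ≤ _ := mul_le_mul_of_nonneg_right hg (by positivity)
  -- choose θ
  set θ : ℝ := b * η / (2 * (r + q ^ 2)) with hθ
  have hden : 0 < (r:ℝ) + q ^ 2 := by positivity
  have hθ0 : 0 ≤ θ := by rw [hθ]; positivity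
  have hpt : ∀ u v : Fin (k+1) → V,
      b * bigF B u v + b * θ * (bigF B u v * bigM κ u v) - (b - 1) - b * θ * bigM κ u v
        - θ ^ 2 * (bigM κ u v) ^ 2 ≤ (bigF B u v) ^ b := by
    intro u v
    have h1 := pointwise_ineq b hb (bigF B u v) (1 + θ * bigM κ u v) (bigF_nonneg B hB u v)
      (by have := mul_nonneg hθ0 (bigM_nonneg κ u v); linarith)
    refine le_trans (le_of_eq ?_) h1
    ring
  have hsum : b * D + b * θ * (𝔼 u : Fin (k+1) → V, 𝔼 v : Fin (k+1) → V,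
      bigF B u v * bigM κ u v) - (b - 1) - b * θ * q ^ 2
      - θ ^ 2 * (𝔼 u : Fin (k+1) → V, 𝔼 v : Fin (k+1) → V, (bigM κ u v) ^ 2)
      ≤ 𝔼 u : Fin (k+1) → V, 𝔼 v : Fin (k+1) → V, (bigF B u v) ^ b := by
    have h1 : 𝔼 u : Fin (k+1) → V, 𝔼 v : Fin (k+1) → V,
        (b * bigF B u v + b * θ * (bigF B u v * bigM κ u v) - (b - 1) - b * θ * bigM κ u v
        - θ ^ 2 * (bigM κ u v) ^ 2) ≤
        𝔼 u : Fin (k+1) → V, 𝔼 v : Fin (k+1) → V, (bigF B u v) ^ b := by
      apply Finset.expect_le_expect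
      intro u _
      apply Finset.expect_le_expect
      intro v _
      exact hpt u v
    refine le_trans (le_of_eq ?_) h1
    simp only [Finset.expect_add_distrib, Finset.expect_sub_distrib, ← Finset.mul_expect,
      Fintype.expect_const, hEF, hEM]
  refine le_trans ?_ hsum
  generalize (𝔼 u : Fin (k+1) → V, 𝔼 v : Fin (k+1) → V, bigF B u v * bigM κ u v) = X at hEFM
  generalize (𝔼 u : Fin (k+1) → V, 𝔼 v : Fin (k+1) → V, (bigM κ u v) ^ 2) = Y at hEM2
  clear hsum hpt hEF hEM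
  clear_value θ D η q d
  have hA : b * θ * (q ^ 2 * (D + η)) ≤ b * θ * X := by
    apply mul_le_mul_of_nonneg_left hEFM (by positivity)
  have hC : θ ^ 2 * Y ≤ θ ^ 2 * (q ^ 2 * (r + q ^ 2)) := by
    apply mul_le_mul_of_nonneg_left hEM2 (by positivity)
  have hfin : 1 + (q ^ 2 * (b:ℝ) ^ 2 * η ^ 2) / (4 * (r + q ^ 2))
      ≤ b * D + b * θ * (q ^ 2 * (D + η)) - (b - 1) - b * θ * q ^ 2
        - θ ^ 2 * (q ^ 2 * (r + q ^ 2)) := by
    have e1 : b * D + b * θ * (q ^ 2 * (D + η)) - (b - 1) - b * θ * q ^ 2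
        - θ ^ 2 * (q ^ 2 * (r + q ^ 2)) = 1 + (b + b * θ * q ^ 2) * (D - 1)
        + (b * θ * q ^ 2 * η - θ ^ 2 * (q ^ 2 * (r + q ^ 2))) := by ring
    have e2 : b * θ * q ^ 2 * η - θ ^ 2 * (q ^ 2 * (r + q ^ 2))
        = (q ^ 2 * (b:ℝ) ^ 2 * η ^ 2) / (4 * (r + q ^ 2)) := by
      rw [hθ]
      field_simp
      ring
    rw [e1, e2]
    have : 0 ≤ (b + b * θ * q ^ 2) * (D - 1) := by
      apply mul_nonneg (by positivity) (by linarith)
    linarith
  have hlast : (q ^ 2 * (b:ℝ) ^ 2) / (4 * (r:ℝ) ^ 2 * (r + q ^ 2))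
      ≤ (q ^ 2 * (b:ℝ) ^ 2 * η ^ 2) / (4 * (r + q ^ 2)) := by
    have e3 : (q ^ 2 * (b:ℝ) ^ 2) / (4 * (r:ℝ) ^ 2 * (r + q ^ 2))
        = (q ^ 2 * (b:ℝ) ^ 2 * ((r:ℝ)⁻¹) ^ 2) / (4 * (r + q ^ 2)) := by
      field_simp
    rw [e3]
    apply div_le_div_of_nonneg_right _ (by positivity)
    apply mul_le_mul_of_nonneg_left _ (by positivity)
    apply pow_le_pow_left₀ (by positivity) hη0
  linarith

lemma bigF_pow_expect (B : V → V → ℝ) (k b : ℕ) :
    𝔼 u : Fin k → V, 𝔼 v : Fin k → V, (bigF B u v) ^ b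
      = 𝔼 y : Fin b → V, ((𝔼 x, ∏ t, B x (y t)) ^ k) ^ 2 := by
  have h1 : ∀ u v : Fin k → V, (bigF B u v) ^ b = 𝔼 y : Fin b → V,
      (∏ s, ∏ t, B (u s) (y t)) * (∏ s, ∏ t, B (v s) (y t)) := by
    intro u v
    unfold bigF
    rw [← expect_prod b (fun y => (∏ s, B (u s) y) * (∏ t, B (v t) y))]
    apply Finset.expect_congr rfl
    intro y _
    rw [Finset.prod_mul_distrib, Finset.prod_comm, Finset.prod_comm (s := Finset.univ)
      (t := Finset.univ) (f := fun (t : Fin b) (s : Fin k) => B (v s) (y t))]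
  simp only [h1]
  have h2 : ∀ u : Fin k → V, 𝔼 v : Fin k → V, 𝔼 y : Fin b → V,
      (∏ s, ∏ t, B (u s) (y t)) * (∏ s, ∏ t, B (v s) (y t))
      = 𝔼 y : Fin b → V, (∏ s, ∏ t, B (u s) (y t)) * (𝔼 x, ∏ t, B x (y t)) ^ k := by
    intro u
    rw [Finset.expect_comm]
    apply Finset.expect_congr rfl
    intro y _
    rw [← Finset.mul_expect, expect_prod k (fun x => ∏ t, B x (y t))]
  simp only [h2]
  rw [Finset.expect_comm]
  apply Finset.expect_congr rfl
  intro y _
  rw [← Finset.expect_mul, expect_prod k (fun x => ∏ t, B x (y t)), sq]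

lemma bigF_div (B : V → V → ℝ) (ρ : ℝ) (k : ℕ) (u v : Fin k → V) :
    bigF (fun x y => B x y / ρ) u v = bigF B u v / (ρ ^ k) ^ 2 := by
  unfold bigF
  rw [Finset.expect_div]
  apply Finset.expect_congr rfl
  intro y _
  rw [Finset.prod_div_distrib, Finset.prod_div_distrib]
  simp only [Finset.prod_const, Finset.card_univ, Fintype.card_fin]
  rw [div_mul_div_comm, sq]

/-- Gain for complete bipartite counts, density not normalised. -/
lemma gain_bip {r : ℕ} (hr : 0 < r) (κ : V → Fin r) (B : V → V → ℝ) (hB : ∀ x y, 0 ≤ B x y)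
    (hκ : ∀ x y, κ x = κ y → B x y = 0) (k b n : ℕ) (hb : 2 ≤ b) (hn : 0 < n) :
    (1 + (((k:ℝ)+1)^2 * (b:ℝ)^2) / (4 * (r:ℝ)^2 * (r + ((k:ℝ)+1)^2))) ^ n *
      (𝔼 y, 𝔼 x, B x y) ^ (2 * (k+1) * n * b) ≤
      𝔼 y : Fin b → V, (𝔼 x, ∏ t, B x (y t)) ^ (2 * (k+1) * n) := by
  have hc0 : ∀ y : Fin b → V, 0 ≤ 𝔼 x, ∏ t, B x (y t) := by
    intro y
    apply Finset.expect_nonneg
    intro x _
    exact Finset.prod_nonneg (fun _ _ => hB _ _)
  set ρ : ℝ := 𝔼 y, 𝔼 x, B x y with hρ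
  have hρ0 : 0 ≤ ρ := Finset.expect_nonneg (fun y _ => Finset.expect_nonneg (fun x _ => hB x y))
  rcases eq_or_lt_of_le hρ0 with h0 | hpos
  · rw [← h0, zero_pow (by positivity), mul_zero]
    apply Finset.expect_nonneg
    intro y _
    have := hc0 y
    positivity
  · have h1 := core_gain hr κ (fun x y => B x y / ρ) (fun x y => div_nonneg (hB x y) hρ0)
      (fun x y h => by rw [hκ x y h, zero_div])
      (by simp only [← Finset.expect_div]; exact div_self (ne_of_gt hpos)) k b hb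
    simp only [bigF_div, div_pow] at h1
    simp only [← Finset.expect_div] at h1
    rw [bigF_pow_expect] at h1
    set T : ℝ := 1 + (((k:ℝ)+1)^2 * (b:ℝ)^2) / (4 * (r:ℝ)^2 * (r + ((k:ℝ)+1)^2)) with hT
    have hT0 : 0 ≤ T := by rw [hT]; positivity
    have hpp : 0 < ((ρ ^ (k+1)) ^ 2) ^ b := by positivity
    rw [le_div_iff₀ hpp] at h1
    have h2 := pow_le_pow_left₀ (by positivity) h1 n
    have h3 := pow_expect_le (fun y : Fin b → V => ((𝔼 x, ∏ t, B x (y t)) ^ (k+1)) ^ 2)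
      (fun y => by positivity) n
    have h4 : T ^ n * ρ ^ (2 * (k+1) * n * b) = (T * ((ρ ^ (k+1)) ^ 2) ^ b) ^ n := by
      rw [mul_pow, ← pow_mul, ← pow_mul, ← pow_mul]
      congr 2
      ring
    rw [h4]
    refine le_trans h2 (le_trans h3 (le_of_eq ?_))
    apply Finset.expect_congr rfl
    intro y _
    rw [← pow_mul, ← pow_mul]
    congr 1
    ring

end core

end Pool.Agent.Helper725.GridGain
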