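import Mathlib
import Pool.Agent.Helper725.GridGain

set_option autoImplicit false

open Finset
open scoped BigOperators

namespace Pool.Agent.Helper725.GridCount

variable {N r : ℕ}

/-- colour of an unordered pair of rows in column `j` -/
def col (v : Fin N → Fin N → Fin N → Fin r) (j : Fin N) : Sym2 (Fin N) → Fin r :=
  Sym2.lift ⟨fun x y => v j (min x y) (max x y), by intro x y; simp only [min_comm, max_comm]⟩

/-- colour of row `x` between the columns `j`, `j'` -/
def kap (h : Fin N → Fin N → Fin N → Fin r) (j j' x : Fin N) : Fin r :=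
  h x (min j j') (max j j')

/-- agreement graph of two columns -/
noncomputable def agr (v : Fin N → Fin N → Fin N → Fin r) (j j' x y : Fin N) : ℝ :=
  if x ≠ y ∧ col v j s(x, y) = col v j' s(x, y) then 1 else 0

lemma agr_nonneg (v : Fin N → Fin N → Fin N → Fin r) (j j' x y : Fin N) :
    0 ≤ agr v j j' x y := by
  unfold agr
  split_ifs <;> norm_num

/-- no alternating rectangle -/
def NoRect (h v : Fin N → Fin N → Fin N → Fin r) : Prop :=
  ∀ i i' j j' : Fin N, i < i' → j < j' → ¬ (h i j j' = h i' j j' ∧ v j i i' = v j' i i')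

lemma kap_ne {h v : Fin N → Fin N → Fin N → Fin r} (hno : NoRect h v) {j j' x y : Fin N}
    (hj : j ≠ j') (hxy : x ≠ y) (hc : col v j s(x, y) = col v j' s(x, y)) :
    kap h j j' x ≠ kap h j j' y := by
  intro hk
  have key : ∀ a b : Fin N, a < b → col v j s(a, b) = col v j' s(a, b) →
      kap h j j' a = kap h j j' b → False := by
    intro a b hab hc hk
    have e1 : min a b = a := min_eq_left hab.le
    have e2 : max a b = b := max_eq_right hab.le
    simp only [col, Sym2.lift_mk, e1, e2] at hc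
    simp only [kap] at hk
    rcases lt_or_gt_of_ne hj with hlt | hlt
    · rw [min_eq_left hlt.le, max_eq_right hlt.le] at hk
      exact hno a b j j' hab hlt ⟨hk, hc⟩
    · rw [min_eq_right hlt.le, max_eq_left hlt.le] at hk
      exact hno a b j' j hab hlt ⟨hk, hc.symm⟩
  rcases lt_or_gt_of_ne hxy with hlt | hlt
  · exact key x y hlt hc hk
  · apply key y x hlt _ hk.symm
    rwa [Sym2.eq_swap]

lemma agr_proper {h v : Fin N → Fin N → Fin N → Fin r} (hno : NoRect h v) {j j' : Fin N}
    (hj : j ≠ j') (x y : Fin N) (hk : kap h j j' x = kap h j j' y) : agr v j j' x y = 0 := by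
  unfold agr
  rw [if_neg]
  rintro ⟨hxy, hc⟩
  exact kap_ne hno hj hxy hc hk

/-- The number of columns agreeing with a given column on a complete bipartite set of pairs. -/
lemma count_agree {h v : Fin N → Fin N → Fin N → Fin r} (hno : NoRect h v) (hN : r + 1 ≤ N)
    {a b : ℕ} (hab : a + b ≤ r + 1) (x : Fin a → Fin N) (y : Fin b → Fin N)
    (hx : Function.Injective x) (hy : Function.Injective y) (hxy : ∀ s t, x s ≠ y t)
    (j : Fin N) :
    (Finset.univ.filter (fun j' => ∀ s t, col v j s(x s, y t) = col v j' s(x s, y t))).card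
      ≤ r ^ ((r+1).choose 2 - a * b) := by
  classical
  have hW0 : (Finset.univ.image x ∪ Finset.univ.image y).card ≤ r + 1 := by
    refine le_trans (Finset.card_union_le _ _) ?_
    rw [Finset.card_image_of_injective _ hx, Finset.card_image_of_injective _ hy]
    simpa using hab
  obtain ⟨W, hW0W, hWc⟩ := Finset.exists_superset_card_eq hW0 (by simpa using hN)
  have hxW : ∀ s, x s ∈ W := fun s =>
    hW0W (Finset.mem_union_left _ (Finset.mem_image_of_mem _ (Finset.mem_univ _)))
  have hyW : ∀ t, y t ∈ W := fun t =>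
    hW0W (Finset.mem_union_right _ (Finset.mem_image_of_mem _ (Finset.mem_univ _)))
  set P : Finset (Sym2 (Fin N)) := W.offDiag.image (fun p => s(p.1, p.2)) with hP
  have hPc : P.card = (r+1).choose 2 := by
    rw [← hWc]
    exact Sym2.card_image_offDiag W
  set Q : Finset (Sym2 (Fin N)) := (Finset.univ : Finset (Fin a × Fin b)).image
    (fun p => s(x p.1, y p.2)) with hQ
  have hQc : Q.card = a * b := by
    rw [hQ, Finset.card_image_of_injective]
    · simp
    · rintro ⟨s, t⟩ ⟨s', t'⟩ he
      simp only [Sym2.eq_iff] at he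
      rcases he with ⟨e1, e2⟩ | ⟨e1, e2⟩
      · rw [hx e1, hy e2]
      · exact absurd e1 (hxy _ _)
  have hQP : Q ⊆ P := by
    intro e he
    rw [hQ, Finset.mem_image] at he
    obtain ⟨p, _, rfl⟩ := he
    rw [hP, Finset.mem_image]
    exact ⟨(x p.1, y p.2), Finset.mem_offDiag.mpr ⟨hxW _, hyW _, hxy _ _⟩, rfl⟩
  set S := Finset.univ.filter
    (fun j' => ∀ s t, col v j s(x s, y t) = col v j' s(x s, y t)) with hS
  have hinj : Set.InjOn (fun (j' : Fin N) (e : ↥(P \ Q)) => col v j' (e : Sym2 (Fin N)))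
      (S : Set (Fin N)) := by
    intro j1 h1 j2 h2 he
    by_contra hne
    simp only [hS, Finset.coe_filter, Finset.mem_univ, true_and, Set.mem_ofPred_eq] at h1 h2
    have hall : ∀ e ∈ P, col v j1 e = col v j2 e := by
      intro e heP
      by_cases heQ : e ∈ Q
      · rw [hQ, Finset.mem_image] at heQ
        obtain ⟨p, _, rfl⟩ := heQ
        rw [← h1, ← h2]
      · exact congrFun he ⟨e, Finset.mem_sdiff.mpr ⟨heP, heQ⟩⟩
    have hlt : (Finset.univ : Finset (Fin r)).card < W.card := by
      rw [hWc]; simp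
    obtain ⟨p, hp, p', hp', hpp, hk⟩ := Finset.exists_ne_map_eq_of_card_lt_of_maps_to hlt
      (f := kap h j1 j2) (fun _ _ => Finset.mem_univ _)
    refine kap_ne hno hne hpp (hall _ ?_) hk
    rw [hP, Finset.mem_image]
    exact ⟨(p, p'), Finset.mem_offDiag.mpr ⟨hp, hp', hpp⟩, rfl⟩
  calc S.card ≤ (Finset.univ : Finset (↥(P \ Q) → Fin r)).card :=
        Finset.card_le_card_of_injOn _ (fun _ _ => Finset.mem_coe.mpr (Finset.mem_univ _)) hinj
    _ = r ^ ((r+1).choose 2 - a * b) := by
        rw [Finset.card_univ, Fintype.card_fun, Fintype.card_fin, Fintype.card_coe,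
          Finset.card_sdiff_of_subset hQP, hPc, hQc]

lemma prod_agr {a b : ℕ} (v : Fin N → Fin N → Fin N → Fin r) (j j' : Fin N)
    (x : Fin a → Fin N) (y : Fin b → Fin N) :
    (∏ s, ∏ t, agr v j j' (x s) (y t)) =
      if (∀ s t, x s ≠ y t ∧ col v j s(x s, y t) = col v j' s(x s, y t)) then 1 else 0 := by
  by_cases h : ∀ s t, x s ≠ y t ∧ col v j s(x s, y t) = col v j' s(x s, y t)
  · rw [if_pos h]
    apply Finset.prod_eq_one
    intro s _
    apply Finset.prod_eq_one
    intro t _
    unfold agr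
    rw [if_pos (h s t)]
  · rw [if_neg h]
    push Not at h
    obtain ⟨s, t, hst⟩ := h
    apply Finset.prod_eq_zero (Finset.mem_univ s)
    apply Finset.prod_eq_zero (Finset.mem_univ t)
    unfold agr
    rw [if_neg]
    rintro ⟨h1, h2⟩
    exact hst h1 h2

lemma not_inj_expect [NeZero N] (a : ℕ) :
    𝔼 x : Fin a → Fin N, (if Function.Injective x then (0:ℝ) else 1) ≤ (a:ℝ) ^ 2 / N := by
  classical
  have hN : (0:ℝ) < N := by exact_mod_cast Nat.pos_of_ne_zero (NeZero.ne N)
  have : Nonempty (Fin N) := ⟨0⟩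
  induction a with
  | zero =>
    simp [Function.injective_of_subsingleton]
  | succ a ih =>
    rw [GridGain.expect_cons]
    have h1 : ∀ (x0 : Fin N) (x : Fin a → Fin N),
        (if Function.Injective (Fin.cons x0 x : Fin (a+1) → Fin N) then (0:ℝ) else 1)
          ≤ (if Function.Injective x then (0:ℝ) else 1) + ∑ s, (if x s = x0 then (1:ℝ) else 0) := by
      intro x0 x
      have hs0 : 0 ≤ ∑ s, (if x s = x0 then (1:ℝ) else 0) :=
        Finset.sum_nonneg (fun _ _ => by split_ifs <;> norm_num)
      by_cases hx : Function.Injective x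
      · rw [if_pos hx]
        by_cases hr : ∃ s, x s = x0
        · obtain ⟨s, hs⟩ := hr
          have : (1:ℝ) ≤ ∑ s, (if x s = x0 then (1:ℝ) else 0) := by
            calc (1:ℝ) = (if x s = x0 then (1:ℝ) else 0) := by rw [if_pos hs]
              _ ≤ _ := Finset.single_le_sum (f := fun s => (if x s = x0 then (1:ℝ) else 0))
                (fun _ _ => by split_ifs <;> norm_num) (Finset.mem_univ s)
          split_ifs <;> linarith
        · rw [if_pos]
          · linarith
          · rw [Fin.cons_injective_iff]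
            refine ⟨?_, hx⟩
            rintro ⟨s, hs⟩
            exact hr ⟨s, hs⟩
      · rw [if_neg hx]
        split_ifs <;> linarith
    have h2 : 𝔼 x0 : Fin N, 𝔼 x : Fin a → Fin N,
        ((if Function.Injective x then (0:ℝ) else 1) + ∑ s, (if x s = x0 then (1:ℝ) else 0))
        ≤ (a:ℝ) ^ 2 / N + a / N := by
      simp only [Finset.expect_add_distrib, Fintype.expect_const]
      apply add_le_add ih
      rw [Finset.expect_comm]
      apply le_of_eq
      have h3 : ∀ x : Fin a → Fin N, 𝔼 x0 : Fin N, ∑ s, (if x s = x0 then (1:ℝ) else 0)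
          = a / N := by
        intro x
        rw [Finset.expect_sum_comm]
        have h4 : ∀ s, 𝔼 x0 : Fin N, (if x s = x0 then (1:ℝ) else 0) = 1 / N := by
          intro s
          rw [Fintype.expect_eq_sum_div_card]
          simp
        simp only [h4]
        simp
        ring
      simp only [h3]
      exact Fintype.expect_const _
    calc _ ≤ 𝔼 x0 : Fin N, 𝔼 x : Fin a → Fin N,
        ((if Function.Injective x then (0:ℝ) else 1) + ∑ s, (if x s = x0 then (1:ℝ) else 0)) := by
          apply Finset.expect_le_expect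
          intro x0 _
          apply Finset.expect_le_expect
          intro x _
          exact h1 x0 x
      _ ≤ (a:ℝ) ^ 2 / N + a / N := h2
      _ ≤ _ := by
        rw [← add_div]
        apply div_le_div_of_nonneg_right _ hN.le
        push_cast
        nlinarith

/-- Upper bound for the average of complete bipartite counts over pairs of columns. -/
lemma upper_avg [NeZero N] {h v : Fin N → Fin N → Fin N → Fin r} (hno : NoRect h v)
    (hN : r + 1 ≤ N) {a b : ℕ} (hab : a + b ≤ r + 1) :
    𝔼 j, 𝔼 j', 𝔼 y : Fin b → Fin N, (𝔼 x, ∏ t, agr v j j' x (y t)) ^ a ≤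
      ((r:ℝ) ^ ((r+1).choose 2 - a * b) + (a:ℝ) ^ 2 + (b:ℝ) ^ 2) / N := by
  classical
  have hN0 : (0:ℝ) < N := by exact_mod_cast Nat.pos_of_ne_zero (NeZero.ne N)
  have : Nonempty (Fin N) := ⟨0⟩
  have e1 : ∀ j j' (y : Fin b → Fin N), (𝔼 x, ∏ t, agr v j j' x (y t)) ^ a
      = 𝔼 x : Fin a → Fin N, ∏ s, ∏ t, agr v j j' (x s) (y t) := by
    intro j j' y
    rw [← GridGain.expect_prod a (fun x => ∏ t, agr v j j' x (y t))]
  simp only [e1]
  have e2 : 𝔼 j, 𝔼 j', 𝔼 y : Fin b → Fin N, 𝔼 x : Fin a → Fin N,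
      ∏ s, ∏ t, agr v j j' (x s) (y t) = 𝔼 y : Fin b → Fin N, 𝔼 x : Fin a → Fin N,
        𝔼 j, 𝔼 j', ∏ s, ∏ t, agr v j j' (x s) (y t) := by
    have f1 : ∀ j, 𝔼 j', 𝔼 y : Fin b → Fin N, 𝔼 x : Fin a → Fin N,
      ∏ s, ∏ t, agr v j j' (x s) (y t) = 𝔼 y : Fin b → Fin N, 𝔼 x : Fin a → Fin N, 𝔼 j',
      ∏ s, ∏ t, agr v j j' (x s) (y t) := by
      intro j
      rw [Finset.expect_comm]
      apply Finset.expect_congr rfl
      intro y _
      rw [Finset.expect_comm]
    simp only [f1]
    rw [Finset.expect_comm]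
    apply Finset.expect_congr rfl
    intro y _
    rw [Finset.expect_comm]
  rw [e2]
  have e3 : ∀ (y : Fin b → Fin N) (x : Fin a → Fin N),
      𝔼 j, 𝔼 j', ∏ s, ∏ t, agr v j j' (x s) (y t) ≤
        (r:ℝ) ^ ((r+1).choose 2 - a * b) / N + (if Function.Injective x then (0:ℝ) else 1)
          + (if Function.Injective y then (0:ℝ) else 1) := by
    intro y x
    simp only [prod_agr]
    have hr0 : (0:ℝ) ≤ (r:ℝ) ^ ((r+1).choose 2 - a * b) / N := by positivity
    have hle1 : 𝔼 j : Fin N, 𝔼 j' : Fin N,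
        (if (∀ s t, x s ≠ y t ∧ col v j s(x s, y t) = col v j' s(x s, y t)) then (1:ℝ) else 0)
        ≤ 1 := by
      apply Finset.expect_le Finset.univ_nonempty
      intro j _
      apply Finset.expect_le Finset.univ_nonempty
      intro j' _
      split_ifs <;> norm_num
    by_cases hx : Function.Injective x
    · by_cases hy : Function.Injective y
      · rw [if_pos hx, if_pos hy, add_zero, add_zero]
        by_cases hxy : ∀ s t, x s ≠ y t
        · apply Finset.expect_le Finset.univ_nonempty
          intro j _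
          have hc := count_agree hno hN hab x y hx hy hxy j
          rw [Fintype.expect_eq_sum_div_card]
          simp only [Fintype.card_fin]
          apply div_le_div_of_nonneg_right _ hN0.le
          rw [Finset.sum_boole]
          have : (Finset.univ.filter (fun j' => ∀ s t, x s ≠ y t ∧
              col v j s(x s, y t) = col v j' s(x s, y t))).card ≤
              r ^ ((r+1).choose 2 - a * b) := by
            refine le_trans (Finset.card_le_card ?_) hc
            intro j' hj'
            simp only [Finset.mem_filter, Finset.mem_univ, true_and] at hj' ⊢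
            exact fun s t => (hj' s t).2
          exact_mod_cast this
        · push Not at hxy
          obtain ⟨s, t, hst⟩ := hxy
          have : ∀ j j' : Fin N, (if (∀ s t, x s ≠ y t ∧
              col v j s(x s, y t) = col v j' s(x s, y t)) then (1:ℝ) else 0) = 0 := by
            intro j j'
            rw [if_neg]
            intro hall
            exact (hall s t).1 hst
          simp only [this]
          simpa using hr0
      · rw [if_neg hy]
        refine le_trans hle1 ?_
        split_ifs <;> linarith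
    · rw [if_neg hx]
      refine le_trans hle1 ?_
      split_ifs <;> linarith
  calc _ ≤ 𝔼 y : Fin b → Fin N, 𝔼 x : Fin a → Fin N,
        ((r:ℝ) ^ ((r+1).choose 2 - a * b) / N + (if Function.Injective x then (0:ℝ) else 1)
          + (if Function.Injective y then (0:ℝ) else 1)) := by
        apply Finset.expect_le_expect
        intro y _
        apply Finset.expect_le_expect
        intro x _
        exact e3 y x
    _ = (r:ℝ) ^ ((r+1).choose 2 - a * b) / N
        + (𝔼 x : Fin a → Fin N, (if Function.Injective x then (0:ℝ) else 1))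
        + (𝔼 y : Fin b → Fin N, (if Function.Injective y then (0:ℝ) else 1)) := by
        simp only [Finset.expect_add_distrib, Fintype.expect_const]
    _ ≤ (r:ℝ) ^ ((r+1).choose 2 - a * b) / N + (a:ℝ) ^ 2 / N + (b:ℝ) ^ 2 / N := by
        have := not_inj_expect (N := N) a
        have := not_inj_expect (N := N) b
        linarith
    _ = _ := by ring

/-- collision probability -/
lemma collision [NeZero N] (hr : 0 < r) (f : Fin N → Fin r) :
    (1:ℝ) / r ≤ 𝔼 j, 𝔼 j', (if f j = f j' then (1:ℝ) else 0) := by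
  classical
  have hN0 : (0:ℝ) < N := by exact_mod_cast Nat.pos_of_ne_zero (NeZero.ne N)
  have hr0 : (0:ℝ) < r := by exact_mod_cast hr
  have : Nonempty (Fin N) := ⟨0⟩
  set w : Fin r → ℝ := fun p => 𝔼 j, (if f j = p then (1:ℝ) else 0) with hw
  have h1 : 𝔼 j, 𝔼 j', (if f j = f j' then (1:ℝ) else 0) = ∑ p, (w p) ^ 2 := by
    have h2 : ∀ j j', (if f j = f j' then (1:ℝ) else 0)
        = ∑ p, (if f j = p then (1:ℝ) else 0) * (if f j' = p then (1:ℝ) else 0) := by
      intro j j'
      simp [eq_comm]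
    simp only [h2, Finset.expect_sum_comm]
    apply Finset.sum_congr rfl
    intro p _
    rw [← Fintype.expect_mul_expect, sq]
  have h3 : ∑ p, w p = 1 := by
    rw [hw]
    simp only
    rw [← Finset.expect_sum_comm]
    simp
  have h4 : (∑ p, w p) ^ 2 ≤ r * ∑ p, (w p) ^ 2 := by
    have := sq_sum_le_card_mul_sum_sq (s := (Finset.univ : Finset (Fin r))) (f := w)
    simpa using this
  rw [h1]
  rw [h3] at h4
  rw [div_le_iff₀ hr0]
  linarith

/-- averaged density over distinct columns -/
lemma density_avg [NeZero N] (hr : 0 < r) (v : Fin N → Fin N → Fin N → Fin r) :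
    (1 - 1 / (N:ℝ)) * (1 / r - 1 / N) ≤
      𝔼 j, 𝔼 j', (if j = j' then (0:ℝ) else 1) * (𝔼 y, 𝔼 x, agr v j j' x y) := by
  classical
  have hN0 : (0:ℝ) < N := by exact_mod_cast Nat.pos_of_ne_zero (NeZero.ne N)
  have hr0 : (0:ℝ) < r := by exact_mod_cast hr
  have : Nonempty (Fin N) := ⟨0⟩
  have hdiag : 𝔼 j : Fin N, 𝔼 j' : Fin N, (if j = j' then (1:ℝ) else 0) = 1 / N := by
    have : ∀ j : Fin N, 𝔼 j' : Fin N, (if j = j' then (1:ℝ) else 0) = 1 / N := by
      intro j
      rw [Fintype.expect_eq_sum_div_card]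
      simp
    simp only [this]
    exact Fintype.expect_const _
  have e2 : 𝔼 j, 𝔼 j', (if j = j' then (0:ℝ) else 1) * (𝔼 y, 𝔼 x, agr v j j' x y)
      = 𝔼 y, 𝔼 x, 𝔼 j, 𝔼 j', (if j = j' then (0:ℝ) else 1) * agr v j j' x y := by
    simp only [Finset.mul_expect]
    have f1 : ∀ j, 𝔼 j', 𝔼 y, 𝔼 x, (if j = j' then (0:ℝ) else 1) * agr v j j' x y
        = 𝔼 y, 𝔼 x, 𝔼 j', (if j = j' then (0:ℝ) else 1) * agr v j j' x y := by
      intro j
      rw [Finset.expect_comm]
      apply Finset.expect_congr rfl
      intro y _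
      rw [Finset.expect_comm]
    simp only [f1]
    rw [Finset.expect_comm]
    apply Finset.expect_congr rfl
    intro y _
    rw [Finset.expect_comm]
  rw [e2]
  have e3 : ∀ y x : Fin N, (if y = x then (0:ℝ) else 1) * (1 / r - 1 / N) ≤
      𝔼 j, 𝔼 j', (if j = j' then (0:ℝ) else 1) * agr v j j' x y := by
    intro y x
    by_cases hxy : y = x
    · rw [if_pos hxy, zero_mul]
      apply Finset.expect_nonneg
      intro j _
      apply Finset.expect_nonneg
      intro j' _
      apply mul_nonneg
      · split_ifs <;> norm_num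
      · exact agr_nonneg _ _ _ _ _
    · rw [if_neg hxy, one_mul]
      have h1 := collision hr (fun j => col v j s(x, y))
      have h2 : ∀ j j', (if j = j' then (0:ℝ) else 1) * agr v j j' x y
          = (if col v j s(x, y) = col v j' s(x, y) then (1:ℝ) else 0)
            - (if j = j' then (1:ℝ) else 0) := by
        intro j j'
        unfold agr
        by_cases hj : j = j'
        · subst hj
          simp
        · rw [if_neg hj, if_neg hj]
          have hxy' : x ≠ y := fun h => hxy h.symm
          simp [hxy']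
      simp only [h2, Finset.expect_sub_distrib, hdiag]
      linarith
  calc (1 - 1 / (N:ℝ)) * (1 / r - 1 / N)
      = 𝔼 y : Fin N, 𝔼 x : Fin N, (if y = x then (0:ℝ) else 1) * (1 / r - 1 / N) := by
        simp only [← Finset.expect_mul]
        congr 1
        have : ∀ y x : Fin N, (if y = x then (0:ℝ) else 1) = 1 - (if y = x then (1:ℝ) else 0) := by
          intro y x
          split_ifs <;> norm_num
        simp only [this, Finset.expect_sub_distrib, hdiag, Fintype.expect_const]
    _ ≤ _ := by
        apply Finset.expect_le_expect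
        intro y _
        apply Finset.expect_le_expect
        intro x _
        exact e3 y x

lemma power_avg [NeZero N] (hr : 0 < r) (hrN : r ≤ N) (v : Fin N → Fin N → Fin N → Fin r)
    (m : ℕ) :
    (1 - 1 / (N:ℝ)) * (1 / r - 1 / N) ^ m ≤
      𝔼 j, 𝔼 j', (if j = j' then (0:ℝ) else 1) * (𝔼 y, 𝔼 x, agr v j j' x y) ^ m := by
  classical
  have hN0 : (0:ℝ) < N := by exact_mod_cast Nat.pos_of_ne_zero (NeZero.ne N)
  have hr0 : (0:ℝ) < r := by exact_mod_cast hr
  have : Nonempty (Fin N) := ⟨0⟩
  set τ : ℝ := 1 / r - 1 / N with hτ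
  have hτ0 : 0 ≤ τ := by
    rw [hτ]
    have : (1:ℝ) / N ≤ 1 / r := one_div_le_one_div_of_le hr0 (by exact_mod_cast hrN)
    linarith
  rcases Nat.eq_zero_or_pos m with rfl | hm
  · simp only [pow_zero, mul_one]
    have hdiag : 𝔼 j : Fin N, 𝔼 j' : Fin N, (if j = j' then (1:ℝ) else 0) = 1 / N := by
      have : ∀ j : Fin N, 𝔼 j' : Fin N, (if j = j' then (1:ℝ) else 0) = 1 / N := by
        intro j
        rw [Fintype.expect_eq_sum_div_card]
        simp
      simp only [this]
      exact Fintype.expect_const _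
    have : ∀ y x : Fin N, (if y = x then (0:ℝ) else 1) = 1 - (if y = x then (1:ℝ) else 0) := by
      intro y x
      split_ifs <;> norm_num
    simp only [this, Finset.expect_sub_distrib, hdiag, Fintype.expect_const]
    exact le_refl _
  obtain ⟨m', rfl⟩ : ∃ m', m = m' + 1 := ⟨m - 1, by omega⟩
  have hdiag : 𝔼 j : Fin N, 𝔼 j' : Fin N, (if j = j' then (0:ℝ) else 1) = 1 - 1 / N := by
    have : ∀ j : Fin N, 𝔼 j' : Fin N, (if j = j' then (1:ℝ) else 0) = 1 / N := by
      intro j
      rw [Fintype.expect_eq_sum_div_card]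
      simp
    have h2 : ∀ y x : Fin N, (if y = x then (0:ℝ) else 1) = 1 - (if y = x then (1:ℝ) else 0) := by
      intro y x
      split_ifs <;> norm_num
    simp only [h2, Finset.expect_sub_distrib, this, Fintype.expect_const]
  have htan : ∀ ρ : ℝ, 0 ≤ ρ → τ ^ (m'+1) + (m'+1) * τ ^ m' * (ρ - τ) ≤ ρ ^ (m'+1) := by
    intro ρ hρ
    rcases eq_or_lt_of_le hτ0 with h0 | hpos
    · rw [← h0]
      rcases Nat.eq_zero_or_pos m' with rfl | hm'
      · simp
      · have : ((0:ℝ) ^ m') = 0 := zero_pow (by omega)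
        rw [pow_succ, this]
        simp only [zero_mul, mul_zero, add_zero]
        positivity
    · have h1 := one_add_mul_le_pow (a := ρ / τ - 1) (by
        have : 0 ≤ ρ / τ := by positivity
        linarith) (m' + 1)
      have h2 : τ ^ (m'+1) * (1 + ((m' + 1 : ℕ) : ℝ) * (ρ / τ - 1))
          ≤ τ ^ (m'+1) * (1 + (ρ / τ - 1)) ^ (m'+1) :=
        mul_le_mul_of_nonneg_left h1 (by positivity)
      have h3 : τ ^ (m'+1) * (1 + (ρ / τ - 1)) ^ (m'+1) = ρ ^ (m'+1) := by
        rw [← mul_pow]
        congr 1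
        field_simp
        ring
      have h4 : τ ^ (m'+1) * (1 + ((m' + 1 : ℕ) : ℝ) * (ρ / τ - 1))
          = τ ^ (m'+1) + (m'+1) * τ ^ m' * (ρ - τ) := by
        rw [pow_succ]
        push_cast
        field_simp
      linarith
  have hd := density_avg hr v
  rw [← hτ] at hd
  calc (1 - 1 / (N:ℝ)) * τ ^ (m'+1)
      ≤ (1 - 1 / (N:ℝ)) * τ ^ (m'+1) + (m'+1) * τ ^ m' *
        ((𝔼 j, 𝔼 j', (if j = j' then (0:ℝ) else 1) * (𝔼 y, 𝔼 x, agr v j j' x y))
          - (1 - 1 / (N:ℝ)) * τ) := by
        have : 0 ≤ (m'+1) * τ ^ m' *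
          ((𝔼 j, 𝔼 j', (if j = j' then (0:ℝ) else 1) * (𝔼 y, 𝔼 x, agr v j j' x y))
          - (1 - 1 / (N:ℝ)) * τ) := by
          apply mul_nonneg (by positivity)
          linarith
        linarith
    _ = 𝔼 j : Fin N, 𝔼 j' : Fin N, (if j = j' then (0:ℝ) else 1) *
        (τ ^ (m'+1) + (m'+1) * τ ^ m' * ((𝔼 y, 𝔼 x, agr v j j' x y) - τ)) := by
        have e1 : ∀ j j' : Fin N, (if j = j' then (0:ℝ) else 1) *
          (τ ^ (m'+1) + (m'+1) * τ ^ m' * ((𝔼 y, 𝔼 x, agr v j j' x y) - τ))
          = (τ ^ (m'+1) - (m'+1) * τ ^ m' * τ) * (if j = j' then (0:ℝ) else 1)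
            + (m'+1) * τ ^ m' * ((if j = j' then (0:ℝ) else 1) *
              (𝔼 y, 𝔼 x, agr v j j' x y)) := by
          intro j j'
          ring
        simp only [e1, Finset.expect_add_distrib, ← Finset.mul_expect, hdiag]
        ring
    _ ≤ _ := by
        apply Finset.expect_le_expect
        intro j _
        apply Finset.expect_le_expect
        intro j' _
        apply mul_le_mul_of_nonneg_left
        · apply htan
          apply Finset.expect_nonneg
          intro y _
          apply Finset.expect_nonneg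
          intro x _
          exact agr_nonneg _ _ _ _ _
        · split_ifs <;> norm_num

/-- Main inequality for a colouring without alternating rectangle. -/
theorem main_ineq [NeZero N] (hr : 0 < r) {h v : Fin N → Fin N → Fin N → Fin r}
    (hno : NoRect h v) (hN : r + 1 ≤ N) (k b n : ℕ) (hb : 2 ≤ b) (hn : 0 < n)
    (hab : 2 * (k+1) * n + b ≤ r + 1) :
    (1 + (((k:ℝ)+1)^2 * (b:ℝ)^2) / (4 * (r:ℝ)^2 * (r + ((k:ℝ)+1)^2))) ^ n *
      ((N - 1) * (1 / r - 1 / N) ^ (2 * (k+1) * n * b)) ≤
      (r:ℝ) ^ ((r+1).choose 2 - 2 * (k+1) * n * b) + ((2 * (k+1) * n : ℕ):ℝ) ^ 2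
        + (b:ℝ) ^ 2 := by
  have hN0 : (0:ℝ) < N := by exact_mod_cast Nat.pos_of_ne_zero (NeZero.ne N)
  have : Nonempty (Fin N) := ⟨0⟩
  set T : ℝ := 1 + (((k:ℝ)+1)^2 * (b:ℝ)^2) / (4 * (r:ℝ)^2 * (r + ((k:ℝ)+1)^2)) with hT
  have hT0 : 0 ≤ T := by rw [hT]; positivity
  set m : ℕ := 2 * (k+1) * n * b with hm
  have h1 := power_avg hr (by omega : r ≤ N) v m
  have h2 := upper_avg hno hN hab
  have h3 : T ^ n * (𝔼 j, 𝔼 j', (if j = j' then (0:ℝ) else 1) *
      (𝔼 y, 𝔼 x, agr v j j' x y) ^ m) ≤
      𝔼 j, 𝔼 j', 𝔼 y : Fin b → Fin N, (𝔼 x, ∏ t, agr v j j' x (y t)) ^ (2 * (k+1) * n) := by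
    rw [Finset.mul_expect]
    apply Finset.expect_le_expect
    intro j _
    rw [Finset.mul_expect]
    apply Finset.expect_le_expect
    intro j' _
    by_cases hj : j = j'
    · rw [if_pos hj, zero_mul, mul_zero]
      apply Finset.expect_nonneg
      intro y _
      apply pow_nonneg
      apply Finset.expect_nonneg
      intro x _
      exact Finset.prod_nonneg (fun _ _ => agr_nonneg _ _ _ _ _)
    · rw [if_neg hj, one_mul]
      exact GridGain.gain_bip hr (kap h j j') (agr v j j') (agr_nonneg v j j')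
        (agr_proper hno hj) k b n hb hn
  have h4 : T ^ n * ((1 - 1 / (N:ℝ)) * (1 / r - 1 / N) ^ m) ≤
      ((r:ℝ) ^ ((r+1).choose 2 - m) + ((2 * (k+1) * n : ℕ):ℝ) ^ 2 + (b:ℝ) ^ 2) / N :=
    le_trans (mul_le_mul_of_nonneg_left h1 (by positivity)) (le_trans h3 h2)
  rw [le_div_iff₀ hN0] at h4
  refine le_trans (le_of_eq ?_) h4
  field_simp

end Pool.Agent.Helper725.GridCount
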