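import Mathlib
import Pool.Agent.Helper725.GridCount

set_option autoImplicit false

open Finset
open scoped BigOperators

namespace Pool.Agent.Helper725.GridFinal

open Pool.Agent.Helper725.GridCount

lemma two_mul_choose (r : ℕ) : 2 * (r+1).choose 2 = (r + 1) * r := by
  induction r with
  | zero => simp
  | succ r ih =>
    rw [Nat.choose_succ_succ' (r+1) 1, Nat.choose_one_right, mul_add, ih]
    ring

/-- Numerical contradiction for large `N`. -/
theorem no_large {N r : ℕ} {h v : Fin N → Fin N → Fin N → Fin r} (hno : NoRect h v)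
    (ε : ℝ) (hε : 0 < ε) (k : ℕ) (hk : 9216 / ε < k) (hr : 8 * (k+1)^2 + 8 ≤ r)
    (hN1 : ε / 2 * (r:ℝ) ^ ((r+1).choose 2) ≤ N) (hN2 : 2 * r ^ 3 ≤ N) : False := by
  have hr0 : 0 < r := by omega
  have hr8 : 8 ≤ r := by omega
  have hrR : (0:ℝ) < r := by exact_mod_cast hr0
  have hr3 : r ≤ r ^ 3 := by nlinarith [sq_nonneg r, Nat.pow_le_pow_left hr8 2]
  have hNr : r + 1 ≤ N := by omega
  have : NeZero N := ⟨by omega⟩
  have hNR : (0:ℝ) < N := by exact_mod_cast (by omega : 0 < N)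
  set q : ℕ := k + 1 with hq
  have hq1 : 1 ≤ q := by omega
  have hq2 : q ≤ q ^ 2 := by nlinarith
  set n : ℕ := r / (4 * q) with hn
  set b : ℕ := r / 2 with hb
  have hn1 : 4 * q * n ≤ r := Nat.mul_div_le r (4 * q)
  have hn2 : r < 4 * q * (n + 1) := by
    have := Nat.lt_mul_div_succ r (by omega : 0 < 4 * q)
    exact this
  have hnpos : 0 < n := by
    rw [hn]
    apply Nat.div_pos _ (by omega)
    omega
  have hb2 : 2 ≤ b := by omega
  have ha : 2 * (2 * q * n) ≤ r := by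
    calc 2 * (2 * q * n) = 4 * q * n := by ring
      _ ≤ r := hn1
  have hb' : 2 * b ≤ r := by omega
  have hab : 2 * (k+1) * n + b ≤ r + 1 := by
    rw [← hq]; omega
  have hmain := main_ineq hr0 hno hNr k b n hb2 hnpos hab
  rw [← hq] at hmain
  set m : ℕ := 2 * q * n * b with hm
  have hm4 : 4 * m ≤ r ^ 2 := by
    calc 4 * m = (2 * (2 * q * n)) * (2 * b) := by rw [hm]; ring
      _ ≤ r * r := Nat.mul_le_mul ha hb'
      _ = r ^ 2 := by ring
  set C : ℕ := (r+1).choose 2 with hC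
  have hC2 : 2 * C = (r+1) * r := two_mul_choose r
  have hmC : m + 2 ≤ C := by nlinarith
  -- real versions
  have hqR : ((q:ℕ):ℝ) = (k:ℝ) + 1 := by rw [hq]; push_cast; ring
  rw [← hqR] at hmain
  set T : ℝ := 1 + ((q:ℝ)^2 * (b:ℝ)^2) / (4 * (r:ℝ)^2 * (r + (q:ℝ)^2)) with hT
  have hqpos : (0:ℝ) < q := by exact_mod_cast hq1
  have hT1 : 1 ≤ T := by
    rw [hT]
    have : 0 ≤ ((q:ℝ)^2 * (b:ℝ)^2) / (4 * (r:ℝ)^2 * (r + (q:ℝ)^2)) := by positivity
    linarith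
  -- lower bound for T ^ n
  have hTn : (q:ℝ) / 576 ≤ T ^ n := by
    have hbR : (r:ℝ) / 3 ≤ b := by
      have : r ≤ 3 * b := by omega
      have : (r:ℝ) ≤ 3 * b := by exact_mod_cast this
      linarith
    have hrq : (r:ℝ) + (q:ℝ)^2 ≤ 2 * r := by
      have : q ^ 2 ≤ r := by
        omega
      have : ((q:ℝ))^2 ≤ r := by exact_mod_cast this
      linarith
    have hT2 : 1 + (q:ℝ)^2 / (72 * r) ≤ T := by
      rw [hT]
      have h1 : (q:ℝ)^2 / (72 * r) = ((q:ℝ)^2 * ((r:ℝ)/3)^2) / (4 * (r:ℝ)^2 * (2 * r)) := by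
        field_simp
        ring
      have h2 : ((q:ℝ)^2 * ((r:ℝ)/3)^2) / (4 * (r:ℝ)^2 * (2 * r)) ≤
          ((q:ℝ)^2 * (b:ℝ)^2) / (4 * (r:ℝ)^2 * (r + (q:ℝ)^2)) := by
        apply div_le_div₀ (by positivity) _ (by positivity)
        · apply mul_le_mul_of_nonneg_left hrq (by positivity)
        · apply mul_le_mul_of_nonneg_left _ (by positivity)
          apply pow_le_pow_left₀ (by positivity) hbR
      linarith
    have hnR : (r:ℝ) / (8 * q) ≤ n := by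
      have h8 : r ≤ 8 * q * n := by
        have h9 : 8 * q ≤ r := by
          have : 8 * q ≤ 8 * q ^ 2 := by omega
          omega
        have h10 : 4 * q * (n + 1) = 4 * q * n + 4 * q := by ring
        have h11 : 8 * q * n = 4 * q * n + 4 * q * n := by ring
        have h12 : 4 * q ≤ 4 * q * n := by nlinarith
        omega
      rw [div_le_iff₀ (by positivity)]
      have : (r:ℝ) ≤ 8 * q * n := by exact_mod_cast h8
      linarith
    have h3 := one_add_mul_le_pow (a := (q:ℝ)^2 / (72 * r)) (by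
      have : 0 ≤ (q:ℝ)^2 / (72 * r) := by positivity
      linarith) n
    have h4 : (1 + (q:ℝ)^2 / (72 * r)) ^ n ≤ T ^ n := pow_le_pow_left₀ (by positivity) hT2 n
    have h5 : (q:ℝ) / 576 = (r:ℝ) / (8 * q) * ((q:ℝ)^2 / (72 * r)) := by
      field_simp
      ring
    have h6 : (r:ℝ) / (8 * q) * ((q:ℝ)^2 / (72 * r)) ≤ n * ((q:ℝ)^2 / (72 * r)) :=
      mul_le_mul_of_nonneg_right hnR (by positivity)
    linarith
  -- the power factor
  have hpf : (1:ℝ) / 2 ≤ (1 - r / N) ^ m := by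
    have h1 := one_add_mul_le_pow (a := -((r:ℝ) / N)) (by
      have : (r:ℝ) / N ≤ 1 := by
        rw [div_le_one hNR]
        exact_mod_cast (by omega : r ≤ N)
      linarith) m
    have h2 : (m:ℝ) * ((r:ℝ) / N) ≤ 1 / 2 := by
      rw [mul_div_assoc', div_le_iff₀ hNR]
      have : 2 * (m * r) ≤ N := by
        calc 2 * (m * r) ≤ (4 * m) * r := by nlinarith
          _ ≤ r ^ 2 * r := Nat.mul_le_mul_right _ hm4
          _ = r ^ 3 := by ring
          _ ≤ N := by omega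
      have : (2:ℝ) * (m * r) ≤ N := by exact_mod_cast this
      linarith
    have h3 : (1:ℝ) + -(r / N) = 1 - r / N := by ring
    rw [h3] at h1
    linarith
  have hpow : (1 / (r:ℝ) - 1 / N) ^ m * (r:ℝ) ^ m = (1 - r / N) ^ m := by
    rw [← mul_pow]
    congr 1
    field_simp
  -- multiply the main inequality by r ^ m
  have hmul := mul_le_mul_of_nonneg_right hmain (by positivity : (0:ℝ) ≤ (r:ℝ) ^ m)
  have hL : T ^ n * (((N:ℝ) - 1) * (1 / (r:ℝ) - 1 / N) ^ m) * (r:ℝ) ^ m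
      = T ^ n * (((N:ℝ) - 1) * (1 - r / N) ^ m) := by
    rw [← hpow]; ring
  rw [hL] at hmul
  have hR : ((r:ℝ) ^ (C - m) + ((2 * q * n : ℕ):ℝ) ^ 2 + (b:ℝ) ^ 2) * (r:ℝ) ^ m
      ≤ 2 * (r:ℝ) ^ C := by
    have h1 : (r:ℝ) ^ (C - m) * (r:ℝ) ^ m = (r:ℝ) ^ C := by
      rw [← pow_add]; congr 1; omega
    have h2 : ((2 * q * n : ℕ):ℝ) ^ 2 + (b:ℝ) ^ 2 ≤ (r:ℝ) ^ 2 := by
      have h3 : (2 * q * n) ^ 2 + b ^ 2 ≤ r ^ 2 := by
        have h31 : (2 * q * n) * (2 * (2 * q * n)) ≤ (2 * q * n) * r := Nat.mul_le_mul_left _ ha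
        have h32 : b * (2 * b) ≤ b * r := Nat.mul_le_mul_left _ hb'
        have h33 : (2 * q * n + b) * r ≤ r * r := by
          apply Nat.mul_le_mul_right
          omega
        have h34 : (2 * q * n) * (2 * (2 * q * n)) = 2 * (2 * q * n) ^ 2 := by ring
        have h35 : b * (2 * b) = 2 * b ^ 2 := by ring
        have h36 : (2 * q * n + b) * r = (2 * q * n) * r + b * r := by ring
        have h37 : r ^ 2 = r * r := by ring
        omega
      exact_mod_cast h3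
    have h4 : (r:ℝ) ^ 2 * (r:ℝ) ^ m ≤ (r:ℝ) ^ C := by
      rw [← pow_add]
      apply pow_le_pow_right₀ _ (by omega)
      exact_mod_cast (by omega : 1 ≤ r)
    calc ((r:ℝ) ^ (C - m) + ((2 * q * n : ℕ):ℝ) ^ 2 + (b:ℝ) ^ 2) * (r:ℝ) ^ m
        = (r:ℝ) ^ (C - m) * (r:ℝ) ^ m + (((2 * q * n : ℕ):ℝ) ^ 2 + (b:ℝ) ^ 2) * (r:ℝ) ^ m := by
          ring
      _ ≤ (r:ℝ) ^ C + (r:ℝ) ^ 2 * (r:ℝ) ^ m := by
          rw [h1]
          have := mul_le_mul_of_nonneg_right h2 (by positivity : (0:ℝ) ≤ (r:ℝ) ^ m)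
          linarith
      _ ≤ 2 * (r:ℝ) ^ C := by linarith
  have hTnpos : 0 < T ^ n := by positivity
  have hN1' : (N:ℝ) / 2 ≤ (N:ℝ) - 1 := by
    have : (2:ℝ) ≤ N := by exact_mod_cast (by omega : 2 ≤ N)
    linarith
  have hfin : T ^ n * ((N:ℝ) / 4) ≤ 2 * (r:ℝ) ^ C := by
    calc T ^ n * ((N:ℝ) / 4) = T ^ n * ((N:ℝ) / 2 * (1 / 2)) := by ring
      _ ≤ T ^ n * (((N:ℝ) - 1) * (1 - r / N) ^ m) := by
          apply mul_le_mul_of_nonneg_left _ hTnpos.le
          apply mul_le_mul hN1' hpf (by norm_num) (by linarith)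
      _ ≤ _ := hmul
      _ ≤ 2 * (r:ℝ) ^ C := hR
  have hrC : (0:ℝ) < (r:ℝ) ^ C := by positivity
  have hkq : 9216 / ε < q := by rw [hqR]; linarith
  rw [div_lt_iff₀ hε] at hkq
  have h7 : (q:ℝ) / 576 * ((ε / 2 * (r:ℝ) ^ C) / 4) ≤ T ^ n * ((N:ℝ) / 4) := by
    apply mul_le_mul hTn (by linarith) (by positivity) hTnpos.le
  have h8 : (q:ℝ) / 576 * ((ε / 2 * (r:ℝ) ^ C) / 4) = (q * ε) / 4608 * (r:ℝ) ^ C := by ring
  rw [h8] at h7
  nlinarith

/-- Eventually the extremal number is at most `ε r ^ C`. -/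
theorem grid_littleO :
    (fun r : ℕ => ((sInf {n : ℕ | ∀ (h v : Fin n → Fin n → Fin n → Fin r),
        ∃ i i' j j' : Fin n, i < i' ∧ j < j' ∧
          h i j j' = h i' j j' ∧ v j i i' = v j' i i'} : ℕ) : ℝ))
      =o[Filter.atTop] (fun r : ℕ => (r : ℝ) ^ ((r + 1).choose 2)) := by
  rw [Asymptotics.isLittleO_iff]
  intro ε hε
  obtain ⟨k, hk⟩ := exists_nat_gt (9216 / ε)
  obtain ⟨R, hR⟩ := exists_nat_gt (4 / ε)
  filter_upwards [Filter.eventually_ge_atTop (R + (8 * (k+1)^2 + 8))] with r hr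
  have hrR : R ≤ r := by omega
  have hr8 : 8 * (k+1)^2 + 8 ≤ r := by omega
  have h8 : 8 ≤ r := by omega
  have hr0 : (0:ℝ) < r := by exact_mod_cast (by omega : 0 < r)
  set C : ℕ := (r+1).choose 2 with hC
  have hC2 : 2 * C = (r+1) * r := two_mul_choose r
  have hC4 : 4 ≤ C := by nlinarith
  have hbig : 4 * (r:ℝ) ^ 3 ≤ ε * (r:ℝ) ^ C := by
    have h1 : (r:ℝ) ^ 4 ≤ (r:ℝ) ^ C := by
      apply pow_le_pow_right₀ _ hC4
      exact_mod_cast (by omega : 1 ≤ r)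
    have h2 : 4 ≤ ε * r := by
      have h3 : 4 / ε < r := lt_of_lt_of_le hR (by exact_mod_cast hrR)
      rw [div_lt_iff₀ hε] at h3
      linarith
    calc 4 * (r:ℝ) ^ 3 ≤ (ε * r) * (r:ℝ) ^ 3 := by
          apply mul_le_mul_of_nonneg_right h2 (by positivity)
      _ = ε * (r:ℝ) ^ 4 := by ring
      _ ≤ ε * (r:ℝ) ^ C := mul_le_mul_of_nonneg_left h1 hε.le
  have hr1 : (1:ℝ) ≤ (r:ℝ) ^ 3 := by
    have : (1:ℝ) ≤ r := by exact_mod_cast (by omega : 1 ≤ r)
    exact one_le_pow₀ this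
  set N : ℕ := ⌊ε * (r:ℝ) ^ C⌋₊ with hN
  have hNle : (N:ℝ) ≤ ε * (r:ℝ) ^ C := Nat.floor_le (by positivity)
  have hNgt : ε * (r:ℝ) ^ C - 1 < N := Nat.sub_one_lt_floor _
  have hN1 : ε / 2 * (r:ℝ) ^ C ≤ N := by
    have : ε / 2 * (r:ℝ) ^ C = (ε * (r:ℝ) ^ C) / 2 := by ring
    rw [this]
    linarith
  have hN2 : 2 * r ^ 3 ≤ N := by
    have : (2:ℝ) * (r:ℝ) ^ 3 ≤ N := by linarith
    exact_mod_cast this
  have hmem : N ∈ {n : ℕ | ∀ (h v : Fin n → Fin n → Fin n → Fin r),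
        ∃ i i' j j' : Fin n, i < i' ∧ j < j' ∧
          h i j j' = h i' j j' ∧ v j i i' = v j' i i'} := by
    by_contra hcon
    simp only [Set.mem_ofPred_eq, not_forall] at hcon
    obtain ⟨h, v, hcon⟩ := hcon
    apply no_large (h := h) (v := v) _ ε hε k hk hr8 hN1 hN2
    intro i i' j j' hi hj hh
    exact hcon ⟨i, i', j, j', hi, hj, hh.1, hh.2⟩
  have hle : sInf {n : ℕ | ∀ (h v : Fin n → Fin n → Fin n → Fin r),
        ∃ i i' j j' : Fin n, i < i' ∧ j < j' ∧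
          h i j j' = h i' j j' ∧ v j i i' = v j' i i'} ≤ N := Nat.sInf_le hmem
  rw [Real.norm_of_nonneg (by positivity), Real.norm_of_nonneg (by positivity)]
  calc _ ≤ (N:ℝ) := by exact_mod_cast hle
    _ ≤ ε * (r:ℝ) ^ C := hNle

end Pool.Agent.Helper725.GridFinal
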