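import Mathlib

set_option autoImplicit false
set_option linter.unusedSectionVars false
set_option linter.unusedVariables false

open Filter Topology
open scoped Classical

namespace Pool.Agent.Helper725.NodeWeight

section General

variable {V : Type} [Fintype V] [DecidableEq V]

/-- lazy node-weighted walk -/
noncomputable def P (G : SimpleGraph V) [DecidableRel G.Adj] (W : V → ℝ) : Matrix V V ℝ :=
  Matrix.of (fun u v => (if u = v then (1/2 : ℝ) else 0) +
    (if G.Adj u v then W v / (2 * (∑ w, if G.Adj u w then W w else 0)) else 0))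

/-- stationary law -/
noncomputable def st (G : SimpleGraph V) [DecidableRel G.Adj] (W : V → ℝ) (y : V) : ℝ :=
  W y * (∑ w, if G.Adj y w then W w else 0) / (∑ z, W z * ∑ w, if G.Adj z w then W w else 0)

/-- total variation distance at time t from x -/
noncomputable def TV (G : SimpleGraph V) [DecidableRel G.Adj] (W : V → ℝ) (t : ℕ) (x : V) : ℝ :=
  (1/2 : ℝ) * ∑ y, |((P G W) ^ t) x y - st G W y|

/-- the limiting operator -/
noncomputable def A (L R : V → V) (c : V → ℝ) (f : V → ℝ) (u : V) : ℝ :=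
  (1/2) * f u + (c (L u) * f (L u) + c (R u) * f (R u)) / (2 * (c (L u) + c (R u)))

lemma A_apply (L R : V → V) (c : V → ℝ) (f : V → ℝ) (u : V) : A L R c f u =
    (1/2) * f u + (c (L u) * f (L u) + c (R u) * f (R u)) / (2 * (c (L u) + c (R u))) := rfl

lemma P_mulVec (G : SimpleGraph V) [DecidableRel G.Adj] (W : V → ℝ) (f : V → ℝ) (u : V) :
    ((P G W).mulVec f) u = (1/2) * f u + (∑ v, if G.Adj u v then W v * f v else 0) /
      (2 * (∑ w, if G.Adj u w then W w else 0)) := by
  simp only [P, Matrix.mulVec, dotProduct, Matrix.of_apply, add_mul, Finset.sum_add_distrib]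
  congr 1
  · simp
  · rw [Finset.sum_div]
    refine Finset.sum_congr rfl fun v _ => ?_
    split_ifs
    · ring
    · simp

variable (G : SimpleGraph V) [DecidableRel G.Adj] (L R : V → V) (e : V → ℕ) (c : V → ℝ)

lemma tendsto_term (hc : ∀ v, 0 < c v) (hLR : ∀ u, e (R u) = e (L u))
    (hL : ∀ u, G.Adj u (L u)) (hR : ∀ u, G.Adj u (R u))
    (hlow : ∀ u v, G.Adj u v → v ≠ L u → v ≠ R u → e v < e (L u))
    (g : ℝ → V → ℝ) (g0 : V → ℝ) (hg : ∀ v, Tendsto (fun B => g B v) atTop (𝓝 (g0 v))) (u : V) :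
    Tendsto (fun B : ℝ => (∑ v, if G.Adj u v then c v * B ^ (e v) * g B v else 0) / B ^ (e (L u))) atTop
      (𝓝 (∑ v, if v = L u ∨ v = R u then c v * g0 v else 0)) := by
  simp_rw [Finset.sum_div]
  refine tendsto_finsetSum _ fun v _ => ?_
  by_cases hv : v = L u ∨ v = R u
  · have hadj : G.Adj u v := by
      rcases hv with h | h
      · rw [h]; exact hL u
      · rw [h]; exact hR u
    have hev : e v = e (L u) := by
      rcases hv with h | h
      · rw [h]
      · rw [h]; exact hLR u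
    simp only [hv, hadj, if_true, hev]
    refine Tendsto.congr' ?_ ((hg v).const_mul (c v))
    filter_upwards [eventually_gt_atTop 0] with B hB
    have : B ^ e (L u) ≠ 0 := pow_ne_zero _ hB.ne'
    field_simp
  · rw [if_neg hv]
    by_cases hadj : G.Adj u v
    · push Not at hv
      have hlt := hlow u v hadj hv.1 hv.2
      simp only [hadj, if_true]
      have h1 : Tendsto (fun B : ℝ => B ^ (e v) / B ^ (e (L u))) atTop (𝓝 0) :=
        tendsto_pow_div_pow_atTop_zero hlt
      have h2 := (h1.mul (hg v)).const_mul (c v)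
      simp only [zero_mul, mul_zero] at h2
      refine h2.congr fun B => ?_
      ring
    · simp [hadj]

lemma sum_LR (g : V → ℝ) (u : V) (hc : ∀ v, 0 < c v) :
    (∑ v, if v = L u ∨ v = R u then c v * g v else 0) / (2 * ∑ v, if v = L u ∨ v = R u then c v * 1 else 0)
      = (c (L u) * g (L u) + c (R u) * g (R u)) / (2 * (c (L u) + c (R u))) := by
  have key : ∀ g : V → ℝ, (∑ v, if v = L u ∨ v = R u then c v * g v else 0) =
      if L u = R u then c (L u) * g (L u) else c (L u) * g (L u) + c (R u) * g (R u) := by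
    intro g
    split_ifs with h
    · rw [← h]; simp
    · rw [← Finset.sum_filter]
      have : (Finset.univ.filter (fun v => v = L u ∨ v = R u)) = {L u, R u} := by
        ext v; simp
      rw [this, Finset.sum_pair h]
  rw [key, key]
  split_ifs with h
  · rw [← h]
    have := (hc (L u)).ne'
    field_simp
  · simp

lemma tendsto_step (hc : ∀ v, 0 < c v) (hLR : ∀ u, e (R u) = e (L u))
    (hL : ∀ u, G.Adj u (L u)) (hR : ∀ u, G.Adj u (R u))
    (hlow : ∀ u v, G.Adj u v → v ≠ L u → v ≠ R u → e v < e (L u))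
    (g : ℝ → V → ℝ) (g0 : V → ℝ) (hg : ∀ v, Tendsto (fun B => g B v) atTop (𝓝 (g0 v))) (u : V) :
    Tendsto (fun B : ℝ => ((P G (fun v => c v * B ^ (e v))).mulVec (g B)) u) atTop
      (𝓝 (A L R c g0 u)) := by
  simp_rw [P_mulVec]
  unfold A
  refine ((hg u).const_mul (1/2)).add ?_
  have h1 := tendsto_term G L R e c hc hLR hL hR hlow g g0 hg u
  have h2 := tendsto_term G L R e c hc hLR hL hR hlow (fun _ _ => 1) (fun _ => 1)
    (fun v => tendsto_const_nhds) u
  have hpos : (0 : ℝ) < ∑ v, if v = L u ∨ v = R u then c v * 1 else 0 := by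
    refine Finset.sum_pos' (fun v _ => ?_) ⟨L u, Finset.mem_univ _, ?_⟩
    · split_ifs
      · have := hc v; linarith
      · exact le_rfl
    · simp [hc]
  have h3 := h1.div (h2.const_mul 2) (by positivity)
  rw [sum_LR L R c g0 u hc] at h3
  refine Tendsto.congr' ?_ h3
  filter_upwards [eventually_gt_atTop 0] with B hB
  have : B ^ e (L u) ≠ 0 := pow_ne_zero _ hB.ne'
  simp only [Pi.div_apply, mul_one]
  rw [← mul_div_assoc, div_div_div_cancel_right₀ this]

lemma tendsto_iter (hc : ∀ v, 0 < c v) (hLR : ∀ u, e (R u) = e (L u))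
    (hL : ∀ u, G.Adj u (L u)) (hR : ∀ u, G.Adj u (R u))
    (hlow : ∀ u v, G.Adj u v → v ≠ L u → v ≠ R u → e v < e (L u))
    (f : V → ℝ) (t : ℕ) (u : V) :
    Tendsto (fun B : ℝ => (((P G (fun v => c v * B ^ (e v))) ^ t).mulVec f) u) atTop
      (𝓝 ((A L R c)^[t] f u)) := by
  induction t generalizing u with
  | zero => simp
  | succ t ih =>
    have := tendsto_step G L R e c hc hLR hL hR hlow
      (fun B => ((P G (fun v => c v * B ^ (e v))) ^ t).mulVec f) _ ih u
    rw [Function.iterate_succ_apply']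
    simpa [pow_succ', Matrix.mulVec_mulVec] using this

lemma tendsto_num (z z' : V) (hzz : z ≠ z') (m : ℕ) (hz : e z = m) (hz' : e z' = m) (hadj : G.Adj z z')
    (htop : ∀ y w, G.Adj y w → ¬ (y = z ∧ w = z') → ¬ (y = z' ∧ w = z) → e y + e w < 2 * m) (y : V) :
    Tendsto (fun B : ℝ => (c y * B ^ (e y) * ∑ w, if G.Adj y w then c w * B ^ (e w) else 0) / B ^ (2 * m))
      atTop (𝓝 (if y = z ∨ y = z' then c z * c z' else 0)) := by
  have h0 : (if y = z ∨ y = z' then c z * c z' else 0) =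
      ∑ w, if (y = z ∧ w = z') ∨ (y = z' ∧ w = z) then c z * c z' else 0 := by
    by_cases h1 : y = z
    · subst h1
      simp [hzz]
    · by_cases h2 : y = z'
      · subst h2
        simp [h1]
      · simp [h1, h2]
  rw [h0]
  simp_rw [Finset.mul_sum, Finset.sum_div]
  refine tendsto_finsetSum _ fun w _ => ?_
  by_cases hw : (y = z ∧ w = z') ∨ (y = z' ∧ w = z)
  · rw [if_pos hw]
    have hyw : G.Adj y w := by
      rcases hw with ⟨h1, h2⟩ | ⟨h1, h2⟩
      · rw [h1, h2]; exact hadj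
      · rw [h1, h2]; exact hadj.symm
    have hval : c y * c w = c z * c z' := by
      rcases hw with ⟨h1, h2⟩ | ⟨h1, h2⟩
      · rw [h1, h2]
      · rw [h1, h2]; ring
    have he : e y = m ∧ e w = m := by
      rcases hw with ⟨h1, h2⟩ | ⟨h1, h2⟩
      · rw [h1, h2]; exact ⟨hz, hz'⟩
      · rw [h1, h2]; exact ⟨hz', hz⟩
    simp only [hyw, if_true, he.1, he.2]
    refine Tendsto.congr' ?_ tendsto_const_nhds
    filter_upwards [eventually_gt_atTop 0] with B hB
    have : B ^ (2 * m) ≠ 0 := pow_ne_zero _ hB.ne'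
    rw [← hval, eq_div_iff this]
    ring
  · rw [if_neg hw]
    push Not at hw
    by_cases hyw : G.Adj y w
    · have hlt := htop y w hyw (fun h => hw.1 h.1 h.2) (fun h => hw.2 h.1 h.2)
      simp only [hyw, if_true]
      have h1 : Tendsto (fun B : ℝ => B ^ (e y + e w) / B ^ (2 * m)) atTop (𝓝 0) :=
        tendsto_pow_div_pow_atTop_zero hlt
      have h2 := h1.const_mul (c y * c w)
      simp only [mul_zero] at h2
      refine h2.congr fun B => ?_
      ring
    · simp [hyw]

lemma tendsto_st (hc : ∀ v, 0 < c v) (z z' : V) (hzz : z ≠ z') (m : ℕ) (hz : e z = m) (hz' : e z' = m) (hadj : G.Adj z z')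
    (htop : ∀ y w, G.Adj y w → ¬ (y = z ∧ w = z') → ¬ (y = z' ∧ w = z) → e y + e w < 2 * m) (y : V) :
    Tendsto (fun B : ℝ => st G (fun v => c v * B ^ (e v)) y) atTop
      (𝓝 (if y = z ∨ y = z' then 1 / 2 else 0)) := by
  have h1 := tendsto_num G e c z z' hzz m hz hz' hadj htop y
  have h2 : Tendsto (fun B : ℝ => (∑ x, c x * B ^ (e x) * ∑ w, if G.Adj x w then c w * B ^ (e w) else 0) / B ^ (2 * m))
      atTop (𝓝 (2 * (c z * c z'))) := by
    have h3 : 2 * (c z * c z') = ∑ x, if x = z ∨ x = z' then c z * c z' else 0 := by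
      rw [← Finset.sum_filter]
      have : (Finset.univ.filter (fun v => v = z ∨ v = z')) = {z, z'} := by
        ext v; simp
      rw [this, Finset.sum_pair hzz]; ring
    rw [h3]
    simp_rw [Finset.sum_div]
    exact tendsto_finsetSum _ fun x _ => tendsto_num G e c z z' hzz m hz hz' hadj htop x
  have hpos : 0 < c z * c z' := mul_pos (hc z) (hc z')
  have h4 := h1.div h2 (by positivity)
  have h5 : (if y = z ∨ y = z' then c z * c z' else 0) / (2 * (c z * c z')) =
      (if y = z ∨ y = z' then 1 / 2 else 0) := by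
    split_ifs
    · field_simp
      exact div_self hpos.ne'
    · simp
  rw [h5] at h4
  refine Tendsto.congr' ?_ h4
  filter_upwards [eventually_gt_atTop 0] with B hB
  have : B ^ (2 * m) ≠ 0 := pow_ne_zero _ hB.ne'
  simp only [Pi.div_apply, st]
  rw [div_div_div_cancel_right₀ this]

lemma mulVec_single' (M : Matrix V V ℝ) (x y : V) : M x y = (M.mulVec (Pi.single y 1)) x := by
  simp

lemma tendsto_TV (hc : ∀ v, 0 < c v) (hLR : ∀ u, e (R u) = e (L u))
    (hL : ∀ u, G.Adj u (L u)) (hR : ∀ u, G.Adj u (R u))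
    (hlow : ∀ u v, G.Adj u v → v ≠ L u → v ≠ R u → e v < e (L u))
    (z z' : V) (hzz : z ≠ z') (m : ℕ) (hz : e z = m) (hz' : e z' = m) (hadj : G.Adj z z')
    (htop : ∀ y w, G.Adj y w → ¬ (y = z ∧ w = z') → ¬ (y = z' ∧ w = z) → e y + e w < 2 * m)
    (t : ℕ) (x : V) :
    Tendsto (fun B : ℝ => TV G (fun v => c v * B ^ (e v)) t x) atTop
      (𝓝 ((1/2) * ∑ y, |(A L R c)^[t] (Pi.single y 1) x - if y = z ∨ y = z' then 1 / 2 else 0|)) := by
  unfold TV
  refine Tendsto.const_mul _ ?_
  refine tendsto_finsetSum _ fun y _ => ?_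
  refine Tendsto.abs ?_
  refine Tendsto.sub ?_ (tendsto_st G e c hc z z' hzz m hz hz' hadj htop y)
  have := tendsto_iter G L R e c hc hLR hL hR hlow (Pi.single y 1) t x
  refine this.congr fun B => ?_
  rw [← mulVec_single']

/-! properties of the operator `A` -/

lemma A_mono (hc : ∀ v, 0 < c v) {f g : V → ℝ} (h : ∀ v, f v ≤ g v) (v : V) :
    A L R c f v ≤ A L R c g v := by
  unfold A
  have h1 := hc (L v)
  have h2 := hc (R v)
  gcongr
  · exact h v
  · exact h _
  · exact h _

lemma A_iter_mono (hc : ∀ v, 0 < c v) {f g : V → ℝ} (h : ∀ v, f v ≤ g v) (t : ℕ) (v : V) :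
    (A L R c)^[t] f v ≤ (A L R c)^[t] g v := by
  induction t generalizing v with
  | zero => exact h v
  | succ t ih =>
    rw [Function.iterate_succ_apply', Function.iterate_succ_apply']
    exact A_mono L R c hc ih v

lemma A_const (hc : ∀ v, 0 < c v) (a : ℝ) : A L R c (fun _ => a) = fun _ => a := by
  ext v
  unfold A
  have h1 := hc (L v)
  have h2 := hc (R v)
  field_simp
  ring

lemma A_iter_const (hc : ∀ v, 0 < c v) (a : ℝ) (t : ℕ) : (A L R c)^[t] (fun _ => a) = fun _ => a := by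
  induction t with
  | zero => rfl
  | succ t ih => rw [Function.iterate_succ_apply, A_const L R c hc, ih]

lemma A_add (f g : V → ℝ) : A L R c (fun v => f v + g v) = fun v => A L R c f v + A L R c g v := by
  ext v; unfold A; ring

lemma A_smul (a : ℝ) (f : V → ℝ) : A L R c (fun v => a * f v) = fun v => a * A L R c f v := by
  ext v; unfold A; ring

lemma A_iter_add (f g : V → ℝ) (t : ℕ) :
    (A L R c)^[t] (fun v => f v + g v) = fun v => (A L R c)^[t] f v + (A L R c)^[t] g v := by
  induction t generalizing f g with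
  | zero => rfl
  | succ t ih => rw [Function.iterate_succ_apply, A_add, ih]; rfl

lemma A_iter_smul (a : ℝ) (f : V → ℝ) (t : ℕ) :
    (A L R c)^[t] (fun v => a * f v) = fun v => a * (A L R c)^[t] f v := by
  induction t generalizing f with
  | zero => rfl
  | succ t ih => rw [Function.iterate_succ_apply, A_smul, ih]; rfl

lemma A_iter_sum {ι : Type} (s : Finset ι) (f : ι → V → ℝ) (t : ℕ) :
    (A L R c)^[t] (fun v => ∑ i ∈ s, f i v) = fun v => ∑ i ∈ s, (A L R c)^[t] (f i) v := by
  classical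
  induction s using Finset.induction_on with
  | empty =>
    simp only [Finset.sum_empty]
    have := A_iter_smul L R c 0 (fun _ => 0) t
    simpa using this
  | insert a s ha ih =>
    simp only [Finset.sum_insert ha]
    rw [A_iter_add, ih]

lemma A_iter_nonneg (hc : ∀ v, 0 < c v) {f : V → ℝ} (h : ∀ v, 0 ≤ f v) (t : ℕ) (v : V) :
    0 ≤ (A L R c)^[t] f v := by
  have h1 := A_iter_mono L R c hc (f := fun _ => 0) (g := f) h t v
  rwa [A_iter_const L R c hc] at h1

/-- the sum of the point masses is one -/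
lemma A_iter_sum_one (hc : ∀ v, 0 < c v) (t : ℕ) (x : V) :
    ∑ y, (A L R c)^[t] (Pi.single y 1) x = 1 := by
  have h1 := A_iter_sum L R c (Finset.univ : Finset V) (fun y => (Pi.single y 1 : V → ℝ)) t
  have h2 : (fun v : V => ∑ y, (Pi.single y (1 : ℝ) : V → ℝ) v) = fun _ => 1 := by
    ext v
    simp [Pi.single_apply]
  rw [h2, A_iter_const L R c hc] at h1
  exact (congrFun h1 x).symm

/-- indicator of the hub -/
noncomputable def hub (z z' : V) : V → ℝ := fun v => if v = z ∨ v = z' then 1 else 0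

lemma hub_eq (z z' : V) (hzz : z ≠ z') :
    hub z z' = fun v => (Pi.single z (1:ℝ) : V → ℝ) v + (Pi.single z' (1:ℝ) : V → ℝ) v := by
  ext v
  unfold hub
  by_cases h1 : v = z
  · subst h1; simp [Pi.single_apply, hzz]
  · by_cases h2 : v = z'
    · subst h2; simp [Pi.single_apply, h1]
    · simp [Pi.single_apply, h1, h2]

lemma slow_bound (hc : ∀ v, 0 < c v) (z z' : V) (hzz : z ≠ z') (t : ℕ) (x : V)
    (hφ : (A L R c)^[t] (hub z z') x ≤ 1 / 2) :
    1 / 4 < (1/2 : ℝ) * ∑ y, |(A L R c)^[t] (Pi.single y 1) x - if y = z ∨ y = z' then 1 / 2 else 0| := by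
  have h1 := A_iter_sum_one L R c hc t x
  rw [hub_eq z z' hzz, A_iter_add] at hφ
  have hz : z ∈ (Finset.univ : Finset V) := Finset.mem_univ z
  have hlow : ∀ y, (A L R c)^[t] (Pi.single y 1) x - (if y = z ∨ y = z' then
      2 * (A L R c)^[t] (Pi.single y 1) x - 1/2 else 0) ≤
      |(A L R c)^[t] (Pi.single y 1) x - if y = z ∨ y = z' then 1 / 2 else 0| := by
    intro y
    split_ifs
    · have := neg_le_abs ((A L R c)^[t] (Pi.single y 1) x - 1 / 2)
      linarith
    · have := le_abs_self ((A L R c)^[t] (Pi.single y 1) x - 0)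
      linarith
  have h2 := Finset.sum_le_sum (fun y (_ : y ∈ (Finset.univ : Finset V)) => hlow y)
  rw [Finset.sum_sub_distrib, h1, ← Finset.sum_filter] at h2
  have h3 : (Finset.univ.filter (fun v => v = z ∨ v = z')) = {z, z'} := by
    ext v; simp
  rw [h3, Finset.sum_pair hzz] at h2
  simp only at hφ
  linarith

lemma fast_bound (hc : ∀ v, 0 < c v) (z z' : V) (hzz : z ≠ z')
    (hLz : L z = z') (hRz : R z = z') (hLz' : L z' = z) (hRz' : R z' = z) (t : ℕ) (x : V)
    (hφ : 4 / 5 ≤ (A L R c)^[t] (hub z z') x) :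
    (1/2 : ℝ) * ∑ y, |(A L R c)^[t+1] (Pi.single y 1) x - if y = z ∨ y = z' then 1 / 2 else 0| < 1 / 4 := by
  have h1 := A_iter_sum_one L R c hc (t + 1) x
  have hn : ∀ y, 0 ≤ (A L R c)^[t+1] (Pi.single y 1) x := by
    intro y
    refine A_iter_nonneg L R c hc (fun v => ?_) (t+1) x
    rw [Pi.single_apply]; split_ifs <;> norm_num
  have hhalf : ∀ y, y = z ∨ y = z' → 2 / 5 ≤ (A L R c)^[t+1] (Pi.single y 1) x := by
    intro y hy
    have hle : ∀ v, (1/2 : ℝ) * hub z z' v ≤ A L R c (Pi.single y 1) v := by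
      intro v
      have hc1 := hc (L v)
      have hc2 := hc (R v)
      have hsn : ∀ w : V, (0 : ℝ) ≤ (Pi.single y (1:ℝ) : V → ℝ) w := by
        intro w; rw [Pi.single_apply]; split_ifs <;> norm_num
      unfold hub
      split_ifs with hv
      · unfold A
        have hcz := (hc z).ne'
        have hcz' := (hc z').ne'
        rcases hv with rfl | rfl <;> rcases hy with rfl | rfl
        · rw [hLz, hRz]
          simp [Pi.single_apply, hzz, hzz.symm]
        · rw [hLz, hRz]
          simp only [Pi.single_apply, hzz, if_false, if_true]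
          apply le_of_eq
          field_simp
          ring
        · rw [hLz', hRz']
          simp only [Pi.single_apply, hzz.symm, if_false, if_true]
          apply le_of_eq
          field_simp
          ring
        · rw [hLz', hRz']
          simp [Pi.single_apply, hzz, hzz.symm]
      · simp only [mul_zero]
        unfold A
        have := hsn v
        have := hsn (L v)
        have := hsn (R v)
        positivity
    have h2 := A_iter_mono L R c hc hle t x
    rw [A_iter_smul] at h2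
    rw [Function.iterate_succ_apply]
    linarith
  have hup : ∀ y, |(A L R c)^[t+1] (Pi.single y 1) x - if y = z ∨ y = z' then 1 / 2 else 0| ≤
      (A L R c)^[t+1] (Pi.single y 1) x - (if y = z ∨ y = z' then 3 / 10 else 0) := by
    intro y
    split_ifs with hy
    · have := hhalf y hy
      rw [abs_le]
      constructor <;> linarith
    · have := hn y
      rw [abs_le]
      constructor <;> linarith
  have h2 := Finset.sum_le_sum (fun y (_ : y ∈ (Finset.univ : Finset V)) => hup y)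
  rw [Finset.sum_sub_distrib, h1, ← Finset.sum_filter] at h2
  have h3 : (Finset.univ.filter (fun v => v = z ∨ v = z')) = {z, z'} := by
    ext v; simp
  rw [h3, Finset.sum_pair hzz] at h2
  linarith

end General

section Concrete

variable (h M : ℕ)

/-- vertices of the ladder graph: levels and run lengths, and two hub vertices -/
abbrev VV (h M : ℕ) : Type := (Fin (M + 1) × Fin (h + 1)) ⊕ Bool

def Lf : VV h M → VV h M
  | Sum.inl (t, i) => if hti : (t : ℕ) < M ∧ (i : ℕ) < h then
      Sum.inl (⟨t + 1, by omega⟩, ⟨i + 1, by omega⟩) else Sum.inr true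
  | Sum.inr b => Sum.inr (!b)

def Rf : VV h M → VV h M
  | Sum.inl (t, i) => if hti : (t : ℕ) < M ∧ (i : ℕ) < h then
      Sum.inl (⟨t + 1, by omega⟩, ⟨0, by omega⟩) else Sum.inr true
  | Sum.inr b => Sum.inr (!b)

def ef : VV h M → ℕ
  | Sum.inl (t, _) => t
  | Sum.inr _ => M + 1

/-- fast weights -/
noncomputable def cf : VV h M → ℝ
  | Sum.inl (_, i) => if (i : ℕ) = 0 then 1 else 3
  | Sum.inr _ => 1

/-- slow weights -/
noncomputable def cs : VV h M → ℝ
  | Sum.inl (_, i) => if (i : ℕ) = 0 then 3 else 1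
  | Sum.inr _ => 1

/-- the graph -/
def GG : SimpleGraph (VV h M) := SimpleGraph.fromRel (fun u v => v = Lf h M u ∨ v = Rf h M u)

lemma GG_adj (u v : VV h M) : (GG h M).Adj u v ↔ u ≠ v ∧
    ((v = Lf h M u ∨ v = Rf h M u) ∨ (u = Lf h M v ∨ u = Rf h M v)) := by
  unfold GG; rw [SimpleGraph.fromRel_adj]

lemma cf_pos (v : VV h M) : 0 < cf h M v := by
  rcases v with ⟨t, i⟩ | b
  · simp only [cf]; split_ifs <;> norm_num
  · simp [cf]

lemma cs_pos (v : VV h M) : 0 < cs h M v := by
  rcases v with ⟨t, i⟩ | b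
  · simp only [cs]; split_ifs <;> norm_num
  · simp [cs]

lemma compar (v : VV h M) : cf h M v ≤ 3 * cs h M v ∧ cs h M v ≤ 3 * cf h M v := by
  rcases v with ⟨t, i⟩ | b
  · simp only [cf, cs]; split_ifs <;> norm_num
  · simp only [cf, cs]; norm_num

lemma ef_R (u : VV h M) : ef h M (Rf h M u) = ef h M (Lf h M u) := by
  rcases u with ⟨t, i⟩ | b
  · simp only [Lf, Rf]; split_ifs <;> simp [ef]
  · simp [Lf, Rf, ef]

lemma ef_lt (t : Fin (M + 1)) (i : Fin (h + 1)) :
    ef h M (Sum.inl (t, i)) < ef h M (Lf h M (Sum.inl (t, i))) := by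
  have := t.2
  simp only [Lf]
  split_ifs
  · simp [ef]
  · simp only [ef]; omega

lemma ef_le (u : VV h M) : ef h M u ≤ ef h M (Lf h M u) := by
  rcases u with ⟨t, i⟩ | b
  · exact (ef_lt h M t i).le
  · simp [Lf, ef]

lemma adj_L (u : VV h M) : (GG h M).Adj u (Lf h M u) := by
  rw [GG_adj]
  refine ⟨?_, Or.inl (Or.inl rfl)⟩
  rcases u with ⟨t, i⟩ | b
  · intro hh
    have := ef_lt h M t i
    rw [← hh] at this
    exact lt_irrefl _ this
  · simp [Lf]

lemma adj_R (u : VV h M) : (GG h M).Adj u (Rf h M u) := by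
  rw [GG_adj]
  refine ⟨?_, Or.inl (Or.inr rfl)⟩
  rcases u with ⟨t, i⟩ | b
  · intro hh
    have := ef_lt h M t i
    rw [← ef_R, ← hh] at this
    exact lt_irrefl _ this
  · simp [Rf]

lemma low (u v : VV h M) (hadj : (GG h M).Adj u v) (h1 : v ≠ Lf h M u) (h2 : v ≠ Rf h M u) :
    ef h M v < ef h M (Lf h M u) := by
  rw [GG_adj] at hadj
  obtain ⟨_, (h3 | h3) | h3⟩ := hadj
  · exact absurd h3 h1
  · exact absurd h3 h2
  · rcases v with ⟨t, i⟩ | b
    · have h4 := ef_lt h M t i
      have h5 := ef_le h M u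
      have h6 : ef h M u = ef h M (Lf h M (Sum.inl (t, i))) := by
        rcases h3 with h3 | h3
        · rw [h3]
        · rw [h3, ef_R]
      omega
    · exfalso
      apply h1
      have h4 : u = Sum.inr (!b) := by
        rcases h3 with h3 | h3 <;> exact h3
      rw [h4]
      simp [Lf]

lemma top (y w : VV h M) (hadj : (GG h M).Adj y w)
    (h1 : ¬ (y = Sum.inr true ∧ w = Sum.inr false)) (h2 : ¬ (y = Sum.inr false ∧ w = Sum.inr true)) :
    ef h M y + ef h M w < 2 * (M + 1) := by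
  have hne := hadj.ne
  rcases y with ⟨t, i⟩ | b <;> rcases w with ⟨t', i'⟩ | b'
  · simp only [ef]; omega
  · simp only [ef]; omega
  · simp only [ef]; omega
  · exfalso
    cases b <;> cases b' <;> simp_all

lemma reach (v : VV h M) : (GG h M).Reachable v (Sum.inr true) := by
  have key : ∀ n : ℕ, ∀ t : Fin (M + 1), ∀ i : Fin (h + 1), M - (t : ℕ) = n →
      (GG h M).Reachable (Sum.inl (t, i)) (Sum.inr true) := by
    intro n
    induction n with
    | zero =>
      intro t i ht
      have h1 := adj_L h M (Sum.inl (t, i))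
      have h2 : Lf h M (Sum.inl (t, i)) = Sum.inr true := by
        simp only [Lf]
        rw [dif_neg]
        omega
      rw [h2] at h1
      exact h1.reachable
    | succ n ih =>
      intro t i ht
      have h1 := adj_L h M (Sum.inl (t, i))
      by_cases hi : (t : ℕ) < M ∧ (i : ℕ) < h
      · have h2 : Lf h M (Sum.inl (t, i)) = Sum.inl (⟨t + 1, by omega⟩, ⟨i + 1, by omega⟩) := by
          simp only [Lf]
          rw [dif_pos hi]
        rw [h2] at h1
        exact h1.reachable.trans (ih _ _ (by simp only; omega))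
      · have h2 : Lf h M (Sum.inl (t, i)) = Sum.inr true := by
          simp only [Lf]
          rw [dif_neg hi]
        rw [h2] at h1
        exact h1.reachable
  rcases v with ⟨t, i⟩ | b
  · exact key _ t i rfl
  · cases b
    · exact (adj_L h M (Sum.inr false)).reachable
    · exact SimpleGraph.Reachable.refl _

lemma connected : (GG h M).Connected := by
  have : Nonempty (VV h M) := ⟨Sum.inr true⟩
  exact ⟨fun u v => (reach h M u).trans (reach h M v).symm⟩

lemma slow_iter (s : ℕ) (t : Fin (M + 1)) (i : Fin (h + 1)) (hts : (t : ℕ) + s ≤ M) :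
    (A (Lf h M) (Rf h M) (cs h M))^[s] (hub (Sum.inr true) (Sum.inr false)) (Sum.inl (t, i)) ≤
      (1/4 : ℝ) ^ (h - (i : ℕ)) + s * (1/4 : ℝ) ^ h := by
  induction s generalizing t i with
  | zero =>
    simp [hub]
  | succ s ih =>
    by_cases hi : (i : ℕ) < h
    · have htM : (t : ℕ) < M := by omega
      rw [Function.iterate_succ_apply']
      have hL : Lf h M (Sum.inl (t, i)) = Sum.inl (⟨t + 1, by omega⟩, ⟨i + 1, by omega⟩) := by
        simp only [Lf]
        rw [dif_pos ⟨htM, hi⟩]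
      have hR : Rf h M (Sum.inl (t, i)) = Sum.inl (⟨t + 1, by omega⟩, ⟨0, by omega⟩) := by
        simp only [Rf]
        rw [dif_pos ⟨htM, hi⟩]
      have h1 := ih t i (by omega)
      have h2 := ih ⟨t + 1, by omega⟩ ⟨i + 1, by omega⟩ (by simp only; omega)
      have h3 := ih ⟨t + 1, by omega⟩ ⟨0, by omega⟩ (by simp only; omega)
      have hc1 : cs h M (Sum.inl (⟨t + 1, by omega⟩, ⟨i + 1, by omega⟩)) = 1 := by simp [cs]
      have hc2 : cs h M (Sum.inl (⟨t + 1, by omega⟩, ⟨0, by omega⟩)) = 3 := by simp [cs]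
      rw [A_apply, hL, hR, hc1, hc2]
      simp only [Nat.sub_zero] at h3
      have h4 : (1/4 : ℝ) ^ (h - ((i : ℕ) + 1)) = 4 * (1/4 : ℝ) ^ (h - (i : ℕ)) := by
        have : h - (i : ℕ) = (h - ((i : ℕ) + 1)) + 1 := by omega
        rw [this, pow_succ]; ring
      rw [h4] at h2
      have h5 : (0 : ℝ) ≤ (1/4 : ℝ) ^ h := by positivity
      push_cast
      linarith
    · have : h - (i : ℕ) = 0 := by omega
      rw [this, pow_zero]
      have h1 := A_iter_mono (Lf h M) (Rf h M) (cs h M) (cs_pos h M)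
        (f := hub (Sum.inr true) (Sum.inr false)) (g := fun _ => 1)
        (fun v => by unfold hub; split_ifs <;> norm_num) (s + 1) (Sum.inl (t, i))
      rw [A_iter_const _ _ _ (cs_pos h M)] at h1
      have h5 : (0 : ℝ) ≤ ((s + 1 : ℕ) : ℝ) * (1/4 : ℝ) ^ h := by positivity
      linarith

lemma hub_step (v : VV h M) : hub (Sum.inr true) (Sum.inr false) v ≤
    A (Lf h M) (Rf h M) (cf h M) (hub (Sum.inr true) (Sum.inr false)) v := by
  rcases v with ⟨t, i⟩ | b
  · have h0 : ∀ w : VV h M, (0:ℝ) ≤ hub (Sum.inr true) (Sum.inr false) w := by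
      intro w; unfold hub; split_ifs <;> norm_num
    have h1 : hub (Sum.inr true) (Sum.inr false) (Sum.inl (t, i) : VV h M) = 0 := by simp [hub]
    rw [h1]
    unfold A
    have := h0 (Sum.inl (t, i))
    have := h0 (Lf h M (Sum.inl (t, i)))
    have := h0 (Rf h M (Sum.inl (t, i)))
    have := cf_pos h M (Lf h M (Sum.inl (t, i)))
    have := cf_pos h M (Rf h M (Sum.inl (t, i)))
    positivity
  · cases b <;> (simp only [A, hub, Lf, Rf, cf]; norm_num)

lemma hub_iter_mono (s : ℕ) (v : VV h M) :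
    (A (Lf h M) (Rf h M) (cf h M))^[s] (hub (Sum.inr true) (Sum.inr false)) v ≤
    (A (Lf h M) (Rf h M) (cf h M))^[s + 1] (hub (Sum.inr true) (Sum.inr false)) v := by
  rw [Function.iterate_succ_apply]
  exact A_iter_mono _ _ _ (cf_pos h M) (hub_step h M) s v

lemma fast_lower (k : ℕ) (s : ℕ) (hs : k + 1 ≤ s) (t : Fin (M + 1)) (i : Fin (h + 1))
    (hk : h - (i : ℕ) ≤ k) :
    (1/2 : ℝ) * (3/8) ^ k ≤
    (A (Lf h M) (Rf h M) (cf h M))^[s] (hub (Sum.inr true) (Sum.inr false)) (Sum.inl (t, i)) := by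
  have hhub : ∀ s : ℕ, (1 : ℝ) ≤ (A (Lf h M) (Rf h M) (cf h M))^[s] (hub (Sum.inr true) (Sum.inr false)) (Sum.inr true) := by
    intro s
    induction s with
    | zero => simp [hub]
    | succ s ih => exact ih.trans (hub_iter_mono h M s _)
  have hnn : ∀ (s : ℕ) (v : VV h M), (0 : ℝ) ≤ (A (Lf h M) (Rf h M) (cf h M))^[s] (hub (Sum.inr true) (Sum.inr false)) v := by
    intro s v
    exact A_iter_nonneg _ _ _ (cf_pos h M) (fun w => by unfold hub; split_ifs <;> norm_num) s v
  induction k generalizing s t i with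
  | zero =>
    obtain ⟨s, rfl⟩ : ∃ s', s = s' + 1 := ⟨s - 1, by omega⟩
    have hL : Lf h M (Sum.inl (t, i)) = Sum.inr true := by
      simp only [Lf]; rw [dif_neg]; omega
    have hR : Rf h M (Sum.inl (t, i)) = Sum.inr true := by
      simp only [Rf]; rw [dif_neg]; omega
    rw [Function.iterate_succ_apply']
    have h1 := hhub s
    have h2 := hnn s (Sum.inl (t, i))
    have hcf : cf h M (Sum.inr true) = 1 := rfl
    rw [A_apply, hL, hR, hcf, pow_zero]
    linarith
  | succ k ih =>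
    obtain ⟨s, rfl⟩ : ∃ s', s = s' + 1 := ⟨s - 1, by omega⟩
    have hpow : (1/2 : ℝ) * (3/8) ^ (k+1) ≤ 1 / 2 := by
      have : (3/8 : ℝ) ^ (k+1) ≤ 1 := pow_le_one₀ (by norm_num) (by norm_num)
      linarith
    rw [Function.iterate_succ_apply']
    by_cases hti : (t : ℕ) < M ∧ (i : ℕ) < h
    · have hL : Lf h M (Sum.inl (t, i)) = Sum.inl (⟨t + 1, by omega⟩, ⟨i + 1, by omega⟩) := by
        simp only [Lf]
        rw [dif_pos hti]
      have hR : Rf h M (Sum.inl (t, i)) = Sum.inl (⟨t + 1, by omega⟩, ⟨0, by omega⟩) := by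
        simp only [Rf]
        rw [dif_pos hti]
      have h1 := ih s (by omega) ⟨t + 1, by omega⟩ ⟨i + 1, by omega⟩ (by simp only; omega)
      have h2 := hnn s (Sum.inl (t, i))
      have h3 := hnn s (Sum.inl (⟨t + 1, by omega⟩, ⟨0, by omega⟩))
      have hc1 : cf h M (Sum.inl (⟨t + 1, by omega⟩, ⟨i + 1, by omega⟩)) = 3 := by simp [cf]
      have hc2 : cf h M (Sum.inl (⟨t + 1, by omega⟩, ⟨0, by omega⟩)) = 1 := by simp [cf]
      rw [A_apply, hL, hR, hc1, hc2, pow_succ]
      linarith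
    · have hL : Lf h M (Sum.inl (t, i)) = Sum.inr true := by
        simp only [Lf]; rw [dif_neg hti]
      have hR : Rf h M (Sum.inl (t, i)) = Sum.inr true := by
        simp only [Rf]; rw [dif_neg hti]
      have h1 := hhub s
      have h2 := hnn s (Sum.inl (t, i))
      refine hpow.trans ?_
      have hcf : cf h M (Sum.inr true) = 1 := rfl
      rw [A_apply, hL, hR, hcf]
      linarith

/-- after `j` blocks the chance of not being at the hub is at most `(1-ρ)^j` -/
lemma fast_blocks (j : ℕ) (v : VV h M) :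
    1 - (1 - (1/2 : ℝ) * (3/8) ^ h) ^ j ≤
    (A (Lf h M) (Rf h M) (cf h M))^[j * (h + 1)] (hub (Sum.inr true) (Sum.inr false)) v := by
  set ρ : ℝ := (1/2 : ℝ) * (3/8) ^ h with hρ
  have hρ0 : 0 ≤ ρ := by positivity
  have hρ1 : ρ ≤ 1 := by
    have : (3/8 : ℝ) ^ h ≤ 1 := pow_le_one₀ (by norm_num) (by norm_num)
    rw [hρ]; linarith
  induction j generalizing v with
  | zero =>
    have : (0:ℝ) ≤ hub (Sum.inr true) (Sum.inr false) v := by unfold hub; split_ifs <;> norm_num
    simpa using this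
  | succ j ih =>
    have h0 : ∀ w : VV h M, 1 - (1 - ρ) ^ j + (1 - ρ) ^ j * hub (Sum.inr true) (Sum.inr false) w ≤
        (A (Lf h M) (Rf h M) (cf h M))^[j * (h + 1)] (hub (Sum.inr true) (Sum.inr false)) w := by
      intro w
      rcases w with ⟨t, i⟩ | b
      · have : hub (Sum.inr true) (Sum.inr false) (Sum.inl (t, i) : VV h M) = 0 := by simp [hub]
        rw [this]
        have := ih (Sum.inl (t, i))
        linarith
      · have h1 : hub (Sum.inr true) (Sum.inr false) (Sum.inr b : VV h M) = 1 := by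
          cases b <;> simp [hub]
        rw [h1]
        have h2 : ∀ s : ℕ, (1 : ℝ) ≤ (A (Lf h M) (Rf h M) (cf h M))^[s] (hub (Sum.inr true) (Sum.inr false)) (Sum.inr b) := by
          intro s
          induction s with
          | zero => simp [h1]
          | succ s ih => exact ih.trans (hub_iter_mono h M s _)
        have := h2 (j * (h + 1))
        linarith
    have h3 := A_iter_mono (Lf h M) (Rf h M) (cf h M) (cf_pos h M) h0 (h + 1) v
    rw [A_iter_add _ _ _ (fun _ => 1 - (1 - ρ) ^ j), A_iter_const _ _ _ (cf_pos h M), A_iter_smul] at h3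
    have h4 : (j + 1) * (h + 1) = (h + 1) + j * (h + 1) := by ring
    rw [h4, Function.iterate_add_apply]
    refine le_trans ?_ h3
    have h5 : ρ ≤ (A (Lf h M) (Rf h M) (cf h M))^[h + 1] (hub (Sum.inr true) (Sum.inr false)) v := by
      rcases v with ⟨t, i⟩ | b
      · exact fast_lower h M h (h + 1) le_rfl t i (Nat.sub_le _ _)
      · have h1 : hub (Sum.inr true) (Sum.inr false) (Sum.inr b : VV h M) = 1 := by
          cases b <;> simp [hub]
        have h2 : ∀ s : ℕ, (1 : ℝ) ≤ (A (Lf h M) (Rf h M) (cf h M))^[s] (hub (Sum.inr true) (Sum.inr false)) (Sum.inr b) := by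
          intro s
          induction s with
          | zero => simp [h1]
          | succ s ih => exact ih.trans (hub_iter_mono h M s _)
        exact hρ1.trans (h2 _)
    have h6 : 0 ≤ (1 - ρ) ^ j := pow_nonneg (by linarith) _
    have h7 := mul_le_mul_of_nonneg_left h5 h6
    rw [pow_succ]
    linarith

/-- choice of the run length -/
lemma exists_h (a : ℝ) : ∃ h : ℕ, a * ((h : ℝ) + 1) * (2/3 : ℝ) ^ h ≤ 1 / 2 := by
  have h1 : Tendsto (fun h : ℕ => ((h : ℝ)) * (2/3 : ℝ) ^ h) atTop (𝓝 0) :=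
    tendsto_self_mul_const_pow_of_lt_one (by norm_num) (by norm_num)
  have h2 : Tendsto (fun h : ℕ => (2/3 : ℝ) ^ h) atTop (𝓝 0) :=
    tendsto_pow_atTop_nhds_zero_of_lt_one (by norm_num) (by norm_num)
  have h3 := (h1.add h2).const_mul a
  simp only [add_zero, mul_zero] at h3
  have h4 := (h3.eventually (gt_mem_nhds (show (0:ℝ) < 1/2 by norm_num))).exists
  obtain ⟨h, hh⟩ := h4
  refine ⟨h, ?_⟩
  have : a * ((h : ℝ) + 1) * (2/3 : ℝ) ^ h = a * (((h : ℝ)) * (2/3 : ℝ) ^ h + (2/3 : ℝ) ^ h) := by ring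
  rw [this]; exact hh.le

lemma pow_bound (ρ : ℝ) (h0 : 0 < ρ) (h1 : ρ ≤ 1) (j : ℕ) (hj : 4 / ρ ≤ j) : (1 - ρ) ^ j ≤ 1 / 5 := by
  have h2 : (5 : ℝ) ≤ (1 + ρ) ^ j := by
    have h3 := one_add_mul_le_pow (a := ρ) (by linarith) j
    have h4 : 4 ≤ j * ρ := by rwa [div_le_iff₀ h0] at hj
    linarith
  have h5 : (1 - ρ) ^ j * (1 + ρ) ^ j ≤ 1 := by
    rw [← mul_pow]
    apply pow_le_one₀
    · nlinarith
    · nlinarith
  have h6 : 0 ≤ (1 - ρ) ^ j := pow_nonneg (by linarith) _
  nlinarith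

/-- the bad family on the type `VV h M` -/
theorem exists_bad (K : ℝ) (hK : 0 < K) : ∃ (h M T : ℕ) (B : ℝ), 0 < B ∧
    (∀ x : VV h M, TV (G := GG h M) (fun v => cf h M v * B ^ (ef h M v)) T x ≤ 1 / 4) ∧
    ∃ x0 : VV h M, 1 / 4 < TV (GG h M) (fun v => cs h M v * B ^ (ef h M v)) ⌈K * (T : ℝ)⌉₊ x0 := by
  obtain ⟨h, hh⟩ := exists_h (10 * K + 2)
  set ρ : ℝ := (1/2 : ℝ) * (3/8) ^ h with hρ
  have hρ0 : 0 < ρ := by positivity
  have hρ1 : ρ ≤ 1 := by
    have : (3/8 : ℝ) ^ h ≤ 1 := pow_le_one₀ (by norm_num) (by norm_num)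
    rw [hρ]; linarith
  set j : ℕ := ⌈4 / ρ⌉₊ with hj
  have hj1 : 4 / ρ ≤ j := Nat.le_ceil _
  have hinv : 4 / ρ = 8 * (8/3 : ℝ) ^ h := by
    have h38 : (3/8 : ℝ) ^ h * (8/3 : ℝ) ^ h = 1 := by
      rw [← mul_pow]; norm_num
    rw [div_eq_iff hρ0.ne', hρ]
    linear_combination (-4 : ℝ) * h38
  have h83 : (1 : ℝ) ≤ (8/3 : ℝ) ^ h := one_le_pow₀ (by norm_num)
  have hj2 : (j : ℝ) ≤ 9 * (8/3 : ℝ) ^ h := by
    have := (Nat.ceil_lt_add_one (show 0 ≤ 4 / ρ by positivity)).le
    rw [← hj, hinv] at this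
    linarith
  set T : ℕ := j * (h + 1) + 1 with hT
  have hT2 : (T : ℝ) ≤ 10 * (8/3 : ℝ) ^ h * ((h : ℝ) + 1) := by
    rw [hT]; push_cast
    have h1 : (0 : ℝ) ≤ h := Nat.cast_nonneg h
    have h2 : (j : ℝ) * ((h : ℝ) + 1) ≤ 9 * (8/3 : ℝ) ^ h * ((h : ℝ) + 1) := by
      gcongr
    have h3 : (1 : ℝ) * 1 ≤ (8/3 : ℝ) ^ h * ((h : ℝ) + 1) := by
      gcongr
      linarith
    linarith
  set s : ℕ := ⌈K * (T : ℝ)⌉₊ with hs
  have hs2 : ((s : ℝ) + 1) ≤ (10 * K + 2) * ((8/3 : ℝ) ^ h * ((h : ℝ) + 1)) := by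
    have h1 := (Nat.ceil_lt_add_one (show 0 ≤ K * (T : ℝ) by positivity)).le
    rw [← hs] at h1
    have h2 : K * (T : ℝ) ≤ K * (10 * (8/3 : ℝ) ^ h * ((h : ℝ) + 1)) := by gcongr
    have h0 : (0 : ℝ) ≤ h := Nat.cast_nonneg h
    have h3 : (1 : ℝ) * 1 ≤ (8/3 : ℝ) ^ h * ((h : ℝ) + 1) := by
      gcongr
      linarith
    linarith
  have hs3 : ((s : ℝ) + 1) * (1/4 : ℝ) ^ h ≤ 1 / 2 := by
    refine le_trans ?_ hh
    have h23 : (8/3 : ℝ) ^ h * (1/4 : ℝ) ^ h = (2/3 : ℝ) ^ h := by
      rw [← mul_pow]; norm_num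
    calc ((s : ℝ) + 1) * (1/4 : ℝ) ^ h
        ≤ ((10 * K + 2) * ((8/3 : ℝ) ^ h * ((h : ℝ) + 1))) * (1/4 : ℝ) ^ h := by gcongr
      _ = (10 * K + 2) * ((h : ℝ) + 1) * ((8/3 : ℝ) ^ h * (1/4 : ℝ) ^ h) := by ring
      _ = (10 * K + 2) * ((h : ℝ) + 1) * (2/3 : ℝ) ^ h := by rw [h23]
  have hzz : (Sum.inr true : VV h s) ≠ Sum.inr false := by simp
  -- fast chain
  have hfast : ∀ x : VV h s, ∀ᶠ B : ℝ in atTop,
      TV (G := GG h s) (fun v => cf h s v * B ^ (ef h s v)) T x ≤ 1 / 4 := by
    intro x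
    have h1 := tendsto_TV (GG h s) (Lf h s) (Rf h s) (ef h s) (cf h s) (cf_pos h s) (ef_R h s)
      (adj_L h s) (adj_R h s) (low h s) (Sum.inr true) (Sum.inr false) hzz (s + 1) rfl rfl
      (adj_L h s (Sum.inr true)) (top h s) T x
    have h2 : 4 / 5 ≤ (A (Lf h s) (Rf h s) (cf h s))^[j * (h + 1)] (hub (Sum.inr true) (Sum.inr false)) x := by
      have h3 := fast_blocks h s j x
      have h4 := pow_bound ρ hρ0 hρ1 j hj1
      rw [← hρ] at h3
      linarith
    have h3 := fast_bound (Lf h s) (Rf h s) (cf h s) (cf_pos h s) (Sum.inr true) (Sum.inr false) hzz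
      rfl rfl rfl rfl (j * (h + 1)) x h2
    rw [← hT] at h3
    exact (h1.eventually (gt_mem_nhds h3)).mono fun B hB => hB.le
  -- slow chain
  have hslow : ∀ᶠ B : ℝ in atTop,
      1 / 4 < TV (G := GG h s) (fun v => cs h s v * B ^ (ef h s v)) s (Sum.inl (⟨0, by omega⟩, ⟨0, by omega⟩)) := by
    have h1 := tendsto_TV (GG h s) (Lf h s) (Rf h s) (ef h s) (cs h s) (cs_pos h s) (ef_R h s)
      (adj_L h s) (adj_R h s) (low h s) (Sum.inr true) (Sum.inr false) hzz (s + 1) rfl rfl
      (adj_L h s (Sum.inr true)) (top h s) s (Sum.inl (⟨0, by omega⟩, ⟨0, by omega⟩))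
    have h2 := slow_iter h s s ⟨0, by omega⟩ ⟨0, by omega⟩ (by simp)
    have h3 := slow_bound (Lf h s) (Rf h s) (cs h s) (cs_pos h s) (Sum.inr true) (Sum.inr false) hzz s
      (Sum.inl (⟨0, by omega⟩, ⟨0, by omega⟩)) (by
        refine h2.trans ?_
        simp only [Nat.sub_zero]
        linarith)
    exact h1.eventually (lt_mem_nhds h3)
  obtain ⟨B, hB1, hB2, hB3⟩ := ((eventually_all.2 hfast).and (hslow.and (eventually_gt_atTop 0))).exists
  exact ⟨h, s, T, B, hB3, hB1, _, hB2⟩

end Concrete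

section Transport

variable {V : Type} [Fintype V] {n : ℕ}

lemma submatrix_pow_equiv {V W : Type} [Fintype V] [DecidableEq V] [Fintype W] [DecidableEq W]
    (M : Matrix V V ℝ) (e : W ≃ V) (t : ℕ) :
    (M.submatrix e e) ^ t = (M ^ t).submatrix e e := by
  induction t with
  | zero => simp
  | succ t ih => rw [pow_succ, ih, pow_succ, Matrix.submatrix_mul_equiv]

lemma P_comap {V W : Type} [Fintype V] [DecidableEq V] [Fintype W] [DecidableEq W]
    (G : SimpleGraph V) [DecidableRel G.Adj] (e : W ≃ V) [DecidableRel (G.comap e).Adj] (w : V → ℝ) :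
    P (G.comap e) (w ∘ e) = (P G w).submatrix e e := by
  ext u v
  simp only [P, Matrix.of_apply, Matrix.submatrix_apply, SimpleGraph.comap_adj, Function.comp_apply,
    EmbeddingLike.apply_eq_iff_eq]
  have : (∑ x : W, if G.Adj (e u) (e x) then w (e x) else 0) = ∑ x : V, if G.Adj (e u) x then w x else 0 :=
    Equiv.sum_comp e (fun x => if G.Adj (e u) x then w x else 0)
  rw [this]

lemma st_comap {V W : Type} [Fintype V] [DecidableEq V] [Fintype W] [DecidableEq W]
    (G : SimpleGraph V) [DecidableRel G.Adj] (e : W ≃ V) [DecidableRel (G.comap e).Adj] (w : V → ℝ) (y : W) :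
    st (G.comap e) (w ∘ e) y = st G w (e y) := by
  simp only [st, SimpleGraph.comap_adj, Function.comp_apply]
  have h1 : ∀ u : W, (∑ x : W, if G.Adj (e u) (e x) then w (e x) else 0) =
      ∑ x : V, if G.Adj (e u) x then w x else 0 := fun u =>
    Equiv.sum_comp e (fun x => if G.Adj (e u) x then w x else 0)
  simp_rw [h1]
  congr 1
  exact Equiv.sum_comp e (fun z => w z * ∑ x : V, if G.Adj z x then w x else 0)

lemma TV_comap {V W : Type} [Fintype V] [DecidableEq V] [Fintype W] [DecidableEq W]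
    (G : SimpleGraph V) [DecidableRel G.Adj] (e : W ≃ V) [DecidableRel (G.comap e).Adj] (w : V → ℝ)
    (t : ℕ) (x : W) :
    TV (G.comap e) (w ∘ e) t x = TV G w t (e x) := by
  unfold TV
  rw [P_comap, submatrix_pow_equiv]
  congr 1
  simp_rw [st_comap, Matrix.submatrix_apply]
  exact Equiv.sum_comp e (fun y => |((P G w) ^ t) (e x) y - st G w y|)

end Transport

theorem final : ¬ (∀ C : ℝ, 1 ≤ C → ∃ K : ℝ, 0 < K ∧
    ∀ (n : ℕ) (G : SimpleGraph (Fin n)), G.Connected →
    ∀ (W W' : Fin n → ℝ), (∀ v, 0 < W v) → (∀ v, W v ≤ C * W' v ∧ W' v ≤ C * W v) →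
    ∀ t : ℕ, (∀ x : Fin n, TV G W t x ≤ 1/4) → (∀ x : Fin n, TV G W' ⌈K * (t : ℝ)⌉₊ x ≤ 1/4)) := by
  intro hall
  obtain ⟨K, hK, hmain⟩ := hall 3 (by norm_num)
  obtain ⟨h, M, T, B, hB, hfast, x0, hslow⟩ := exists_bad K hK
  let e : Fin (Fintype.card (VV h M)) ≃ VV h M := (Fintype.equivFin (VV h M)).symm
  have hconn : ((GG h M).comap e).Connected := by
    rw [(SimpleGraph.Iso.comap e (GG h M)).connected_iff]
    exact connected h M
  have h1 := hmain _ ((GG h M).comap e) hconn
    ((fun v => cf h M v * B ^ (ef h M v)) ∘ e) ((fun v => cs h M v * B ^ (ef h M v)) ∘ e)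
    (fun v => mul_pos (cf_pos h M _) (pow_pos hB _))
    (fun v => by
      have hp : 0 < B ^ ef h M (e v) := pow_pos hB _
      have hc := compar h M (e v)
      simp only [Function.comp_apply]
      constructor <;> nlinarith) T
    (fun x => by rw [TV_comap]; exact hfast _) (e.symm x0)
  rw [TV_comap, Equiv.apply_symm_apply] at h1
  exact absurd hslow (not_lt.2 h1)

end Pool.Agent.Helper725.NodeWeight
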